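import Pool.Agent.H62.HM.Moment

/-!
# Balanced configurations: the bound for the number of necks
-/

set_option autoImplicit false

namespace Pool.Agent.H62.HM

open Finset

variable {m : ℕ} {n : ℕ → ℕ} {Q : ℕ → ℝ} {p : (k : ℕ) → Fin (n k) → ℂ}

theorem quad_strict (hQ : ∀ j, j + 1 < m + 2 → Q (j + 1) < Q j) (h0 : ds Q (m + 2) = 0)
    (hm : 1 ≤ m) :
    ((m : ℝ) + 1) * (m + 2) * ∑ k ∈ range (m + 2), Q k ^ 2 <
      4 * (∑ k ∈ range (m + 1), ds Q (k + 1)) ^ 2 := by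
  have hQ' : ∀ j, j + 1 < m + 2 → Q (j + 1) ≤ Q j := fun j hj => (hQ j hj).le
  set D := ∑ k ∈ range (m + 1), ds Q (k + 1) with hD
  have h5 := ends_le hQ' h0
  rw [← hD] at h5
  have h6 : Q (m + 1) < Q 0 := (hQ m (by omega)).trans_le (anti hQ' (by omega) (by omega))
  have hmR : (1 : ℝ) ≤ m := by exact_mod_cast hm
  have hD0 : 0 < D := by nlinarith
  have h1 : ((m : ℝ) + 2) * ∑ k ∈ range (m + 2), Q k ^ 2 < 2 * D * (Q 0 - Q (m + 1)) := by
    rw [abel Q (m + 1), h0, mul_zero, zero_add, mul_sum]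
    have e : 2 * D * (Q 0 - Q (m + 1)) = ∑ k ∈ range (m + 1), 2 * D * (Q k - Q (k + 1)) := by
      rw [← mul_sum, sum_range_sub' (fun k => Q k)]
    rw [e]
    apply sum_lt_sum
    · intro k hk
      rw [mem_range] at hk
      have h2 := le_total hQ' h0 (j := k + 1) (by omega)
      have h3 := hQ' k (by omega)
      rw [← hD] at h2
      have h4 : 0 ≤ (Q k - Q (k + 1)) * (2 * D - ((m : ℝ) + 2) * ds Q (k + 1)) :=
        mul_nonneg (by linarith) (by linarith)
      linarith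
    · by_contra hc
      push Not at hc
      have h2 : ∀ k ∈ range (m + 1), 2 * D ≤ ((m : ℝ) + 2) * ds Q (k + 1) := by
        intro k hk
        have h3 := hc k hk
        rw [mem_range] at hk
        have h4 := hQ k (by omega)
        by_contra h5
        push Not at h5
        have := mul_pos (by linarith : 0 < Q k - Q (k + 1))
          (by linarith : 0 < 2 * D - ((m : ℝ) + 2) * ds Q (k + 1))
        linarith
      have h3 := sum_le_sum h2
      rw [sum_const, card_range, nsmul_eq_mul, ← mul_sum, ← hD] at h3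
      push_cast at h3
      nlinarith
  nlinarith [mul_nonneg (by linarith : (0 : ℝ) ≤ 2 * D) (by linarith : (0 : ℝ) ≤ 2 * D - ((m : ℝ) + 1) * (Q 0 - Q (m + 1))), mul_lt_mul_of_pos_left h1 (by positivity : (0 : ℝ) < (m : ℝ) + 1)]

theorem cauchy (h : Balanced (m + 2) n Q p) :
    2 * (∑ k ∈ range (m + 1), ds Q (k + 1)) ^ 2 ≤
      (∑ k ∈ range (m + 1), (n k : ℝ)) * ∑ k ∈ range (m + 2), Q k ^ 2 := by
  have h0 : ds Q (m + 2) = 0 := h.sum
  have h1 := moment h
  have h2 := energy h0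
  have h3 := sum_sq_le_sum_mul_sum_of_sq_le_mul (range (m + 1)) (r := fun k => ds Q (k + 1))
    (f := fun k => (n k : ℝ)) (g := fun k => ds Q (k + 1) ^ 2 / n k)
    (fun k _ => by positivity) (fun k _ => by positivity) (fun k hk => by
      rw [mem_range] at hk
      have : (n k : ℝ) ≠ 0 := by
        have := h.pos k (by omega)
        positivity
      apply le_of_eq
      field_simp)
  have e : ∑ k ∈ range (m + 2), Q k ^ 2 = 2 * ∑ k ∈ range (m + 1), ds Q (k + 1) ^ 2 / n k := by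
    rw [h1, h2]; ring
  rw [e]
  linarith

theorem sq_pos' (hQ : ∃ j, j < m + 2 ∧ Q j ≠ 0) : 0 < ∑ k ∈ range (m + 2), Q k ^ 2 := by
  obtain ⟨j, hj, h⟩ := hQ
  exact sum_pos' (fun k _ => sq_nonneg _) ⟨j, mem_range.2 hj, by positivity⟩

theorem necks (h : Balanced (m + 2) n Q p) (hQ : ∀ j, j + 1 < m + 2 → Q (j + 1) ≤ Q j)
    (hne : ∃ j, j < m + 2 ∧ Q j ≠ 0) :
    (m + 1) * (m + 2) ≤ 2 * ∑ k ∈ range (m + 1), n k := by
  have h1 := cauchy h
  have h2 := quad hQ h.sum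
  have h3 := sq_pos' hne
  have h4 : (((m + 1) * (m + 2) : ℕ) : ℝ) ≤ ((2 * ∑ k ∈ range (m + 1), n k : ℕ) : ℝ) := by
    push_cast
    by_contra hc
    push Not at hc
    have := mul_lt_mul_of_pos_right hc h3
    linarith
  exact_mod_cast h4

theorem necks_strict (h : Balanced (m + 2) n Q p) (hQ : ∀ j, j + 1 < m + 2 → Q (j + 1) < Q j)
    (hm : 1 ≤ m) : (m + 1) * (m + 2) + 2 ≤ 2 * ∑ k ∈ range (m + 1), n k := by
  have h1 := cauchy h
  have h2 := quad_strict hQ h.sum hm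
  have hne : ∃ j, j < m + 2 ∧ Q j ≠ 0 := by
    by_contra hc
    push Not at hc
    have := hQ 0 (by omega)
    rw [hc 0 (by omega), hc (0 + 1) (by omega)] at this
    exact lt_irrefl _ this
  have h3 := sq_pos' hne
  have h4 : (((m + 1) * (m + 2) : ℕ) : ℝ) < ((2 * ∑ k ∈ range (m + 1), n k : ℕ) : ℝ) := by
    push_cast
    by_contra hc
    push Not at hc
    have := mul_le_mul_of_nonneg_right hc h3.le
    linarith
  have h5 : (m + 1) * (m + 2) < 2 * ∑ k ∈ range (m + 1), n k := by exact_mod_cast h4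
  have h6 : Even ((m + 1) * (m + 2)) := Nat.even_mul_succ_self (m + 1)
  obtain ⟨c, hc⟩ := h6
  omega

/-- the genus -/
def genus (N : ℕ) (n : ℕ → ℕ) : ℕ := ∑ k ∈ range (N - 1), (n k - 1)

theorem genus_add (h : Balanced (m + 2) n Q p) :
    ∑ k ∈ range (m + 1), n k = genus (m + 2) n + (m + 1) := by
  have e : m + 2 - 1 = m + 1 := rfl
  unfold genus
  rw [e]
  have : ∀ k ∈ range (m + 1), n k = (n k - 1) + 1 := by
    intro k hk
    rw [mem_range] at hk
    have := h.pos k (by omega)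
    omega
  rw [sum_congr rfl this, sum_add_distrib]
  simp

theorem bound {N : ℕ} (hN : 2 ≤ N) (h : Balanced N n Q p)
    (hQ : ∀ j, j + 1 < N → Q (j + 1) ≤ Q j) (hne : ∃ j, j < N ∧ Q j ≠ 0) :
    (N - 1) * (N - 2) ≤ 2 * genus N n := by
  obtain ⟨m, rfl⟩ : ∃ m, N = m + 2 := ⟨N - 2, by omega⟩
  have h1 := necks h hQ hne
  rw [genus_add h] at h1
  have e1 : m + 2 - 1 = m + 1 := rfl
  have e2 : m + 2 - 2 = m := rfl
  rw [e1, e2]
  nlinarith

theorem bound_strict {N : ℕ} (hN : 3 ≤ N) (h : Balanced N n Q p)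
    (hQ : ∀ j, j + 1 < N → Q (j + 1) < Q j) :
    (N - 1) * (N - 2) + 2 ≤ 2 * genus N n := by
  obtain ⟨m, rfl⟩ : ∃ m, N = m + 2 := ⟨N - 2, by omega⟩
  have h1 := necks_strict h hQ (by omega)
  rw [genus_add h] at h1
  have e1 : m + 2 - 1 = m + 1 := rfl
  have e2 : m + 2 - 2 = m := rfl
  rw [e1, e2]
  nlinarith

end Pool.Agent.H62.HM
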