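import Pool.Agent.H62.HM.Bound

/-!
# A balanced configuration without the order of the growths
-/

set_option autoImplicit false

namespace Pool.Agent.H62.HM

open Finset

/-- necks 1, 2, 1 -/
def n4 : ℕ → ℕ
  | 1 => 2
  | _ => 1

/-- growths 1, 3, -3, -1 -/
def Q4 : ℕ → ℝ
  | 0 => 1
  | 1 => 3
  | 2 => -3
  | _ => -1

/-- positions 0; 1, -1; 0 -/
def p4 : (k : ℕ) → Fin (n4 k) → ℂ
  | 1, i => if i.val = 0 then 1 else -1
  | _, _ => 0

theorem size4_0 : size n4 Q4 0 = 1 := by
  have : n4 0 = 1 := rfl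
  simp [size, this, Q4]

theorem size4_1 : size n4 Q4 1 = 2 := by
  have : n4 1 = 2 := rfl
  simp [size, this, Q4, sum_range_succ]
  norm_num

theorem size4_2 : size n4 Q4 2 = 1 := by
  have : n4 2 = 1 := rfl
  simp [size, this, Q4, sum_range_succ]

theorem ex4 : Balanced 4 n4 Q4 p4 := by
  refine ⟨?_, ?_, ?_, ?_, ?_⟩
  · intro k hk
    have hk' : k < 3 := by omega
    interval_cases k <;> decide
  · intro k hk
    have hk' : k < 3 := by omega
    interval_cases k
    · intro i j _
      have hi : i.val < 1 := i.2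
      have hj : j.val < 1 := j.2
      exact Fin.ext (by omega)
    · intro i j hij
      have hi : i.val < 2 := i.2
      have hj : j.val < 2 := j.2
      change (if i.val = 0 then (1 : ℂ) else -1) = (if j.val = 0 then (1 : ℂ) else -1) at hij
      apply Fin.ext
      by_cases h1 : i.val = 0 <;> by_cases h2 : j.val = 0
      · omega
      · rw [if_pos h1, if_neg h2] at hij; norm_num at hij
      · rw [if_neg h1, if_pos h2] at hij; norm_num at hij
      · omega
    · intro i j _
      have hi : i.val < 1 := i.2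
      have hj : j.val < 1 := j.2
      exact Fin.ext (by omega)
  · intro k hk i j
    have : k < 2 := by omega
    interval_cases k
    · change (0 : ℂ) ≠ if j.val = 0 then (1 : ℂ) else -1
      split_ifs <;> norm_num
    · change (if i.val = 0 then (1 : ℂ) else -1) ≠ 0
      split_ifs <;> norm_num
  · simp [sum_range_succ, Q4]
  · have s1 : ∀ f : Fin (n4 0) → ℂ, ∑ j, f j = f ⟨0, by decide⟩ := fun f => Fin.sum_univ_one f
    have s2 : ∀ f : Fin (n4 1) → ℂ, ∑ j, f j = f ⟨0, by decide⟩ + f ⟨1, by decide⟩ :=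
      fun f => Fin.sum_univ_two f
    have s3 : ∀ f : Fin (n4 2) → ℂ, ∑ j, f j = f ⟨0, by decide⟩ := fun f => Fin.sum_univ_one f
    intro k hk i
    have hk' : k < 3 := by omega
    unfold force
    rw [sum_erase _ (by simp)]
    interval_cases k
    · have e : (range (4 - 1)).filter (fun l => l + 1 = 0 ∨ l = 0 + 1) = {1} := by decide
      rw [e, sum_singleton, s1, s2, size4_0, size4_1]
      change _ / ((0 : ℂ) - 0) - (_ / ((0 : ℂ) - (if (0 : ℕ) = 0 then (1 : ℂ) else -1)) +
        _ / ((0 : ℂ) - (if (1 : ℕ) = 0 then (1 : ℂ) else -1))) = 0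
      norm_num
    · have e : (range (4 - 1)).filter (fun l => l + 1 = 1 ∨ l = 1 + 1) = {0, 2} := by decide
      rw [e, sum_insert (by decide), sum_singleton, s2, s1, s3, size4_0, size4_1, size4_2]
      change _ / ((if i.val = 0 then (1 : ℂ) else -1) - (if (0 : ℕ) = 0 then (1 : ℂ) else -1)) +
        _ / ((if i.val = 0 then (1 : ℂ) else -1) - (if (1 : ℕ) = 0 then (1 : ℂ) else -1)) -
        (_ / ((if i.val = 0 then (1 : ℂ) else -1) - 0) +
          _ / ((if i.val = 0 then (1 : ℂ) else -1) - 0)) = 0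
      rw [if_pos (rfl : (0 : ℕ) = 0), if_neg (one_ne_zero : (1 : ℕ) ≠ 0)]
      by_cases h : i.val = 0
      · rw [if_pos h]; norm_num
      · rw [if_neg h]; norm_num
    · have e : (range (4 - 1)).filter (fun l => l + 1 = 2 ∨ l = 2 + 1) = {1} := by decide
      rw [e, sum_singleton, s3, s2, size4_2, size4_1]
      change _ / ((0 : ℂ) - 0) - (_ / ((0 : ℂ) - (if (0 : ℕ) = 0 then (1 : ℂ) else -1)) +
        _ / ((0 : ℂ) - (if (1 : ℕ) = 0 then (1 : ℂ) else -1))) = 0
      norm_num

theorem genus4 : genus 4 n4 = 1 := by decide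

end Pool.Agent.H62.HM
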