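import Pool.Agent.H62.HM.Bound

/-!
# Three ends of growths 1, 0, -1, two necks at each level
-/

set_option autoImplicit false

namespace Pool.Agent.H62.HM

open Finset Complex

/-- growths 1, 0, -1 -/
def Q3 : ℕ → ℝ
  | 0 => 1
  | 1 => 0
  | _ => -1

/-- positions 1, -1; i, -i -/
noncomputable def p3 : (k : ℕ) → Fin 2 → ℂ
  | 0, i => if i = 0 then 1 else -1
  | _, i => if i = 0 then I else -I

theorem size3_0 : size (fun _ => 2) Q3 0 = 1 / 2 := by
  simp [size, Q3]

theorem size3_1 : size (fun _ => 2) Q3 1 = 1 / 2 := by
  simp [size, Q3, sum_range_succ]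

theorem i_ne : (1 : ℂ) ≠ I ∧ (1 : ℂ) ≠ -I ∧ (-1 : ℂ) ≠ I ∧ (-1 : ℂ) ≠ -I := by
  refine ⟨?_, ?_, ?_, ?_⟩ <;> intro h <;> have := congrArg Complex.re h <;> simp at this

theorem ex3 : Balanced 3 (fun _ => 2) Q3 p3 := by
  obtain ⟨a1, a2, a3, a4⟩ := i_ne
  refine ⟨?_, ?_, ?_, ?_, ?_⟩
  · intro k _
    decide
  · intro k hk
    have hk' : k < 2 := by omega
    interval_cases k
    · have hne : (1 : ℂ) ≠ -1 := by norm_num
      intro i j hij
      fin_cases i <;> fin_cases j
      · rfl
      · exact absurd (show (1 : ℂ) = -1 from hij) hne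
      · exact absurd (show (-1 : ℂ) = 1 from hij) hne.symm
      · rfl
    · have hne : I ≠ -I := by
        intro h
        have := congrArg Complex.im h
        norm_num at this
      intro i j hij
      fin_cases i <;> fin_cases j
      · rfl
      · exact absurd (show I = -I from hij) hne
      · exact absurd (show -I = I from hij) hne.symm
      · rfl
  · intro k hk i j
    have hk' : k < 1 := by omega
    interval_cases k
    fin_cases i <;> fin_cases j <;> simp [p3] <;> assumption
  · simp [sum_range_succ, Q3]
  · intro k hk i
    have hk' : k < 2 := by omega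
    unfold force
    rw [sum_erase _ (by simp)]
    have hI : I ≠ 0 := Complex.I_ne_zero
    have hI2 : I ^ 2 = -1 := Complex.I_sq
    have b1 : (1 : ℂ) - I ≠ 0 := sub_ne_zero.2 a1
    have b2 : (1 : ℂ) + I ≠ 0 := by intro h; exact a2 (by linear_combination h)
    have b3 : (-1 : ℂ) - I ≠ 0 := sub_ne_zero.2 a3
    have b4 : (-1 : ℂ) + I ≠ 0 := by intro h; exact a4 (by linear_combination h)
    have b5 : I - 1 ≠ 0 := by intro h; exact a1 (by linear_combination -h)
    have b6 : I + 1 ≠ 0 := by intro h; exact b2 (by linear_combination h)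
    have b7 : -I - 1 ≠ 0 := by intro h; exact b2 (by linear_combination -h)
    have b8 : -I + 1 ≠ 0 := by intro h; exact b1 (by linear_combination h)
    interval_cases k
    · have e : (range (3 - 1)).filter (fun l => l + 1 = 0 ∨ l = 0 + 1) = {1} := by decide
      rw [e, sum_singleton, Fin.sum_univ_two, Fin.sum_univ_two, size3_0, size3_1]
      fin_cases i
      · simp only [p3, Fin.zero_eta, Fin.isValue, if_true, one_ne_zero, if_false, sub_self,
          div_zero, zero_add, sub_neg_eq_add]
        field_simp
        push_cast
        ring_nf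
        rw [hI2]; norm_num
      · simp only [p3, Fin.mk_one, Fin.isValue, if_true, one_ne_zero, if_false, sub_self,
          div_zero, add_zero, sub_neg_eq_add]
        field_simp
        push_cast
        ring_nf
        rw [hI2]; norm_num
    · have e : (range (3 - 1)).filter (fun l => l + 1 = 1 ∨ l = 1 + 1) = {0} := by decide
      rw [e, sum_singleton, Fin.sum_univ_two, Fin.sum_univ_two, size3_0, size3_1]
      fin_cases i
      · simp only [p3, Fin.zero_eta, Fin.isValue, if_true, one_ne_zero, if_false, sub_self,
          div_zero, zero_add, sub_neg_eq_add]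
        field_simp
        push_cast
        ring_nf
        rw [hI2]; norm_num
      · simp only [p3, Fin.mk_one, Fin.isValue, if_true, one_ne_zero, if_false, sub_self,
          div_zero, add_zero, sub_neg_eq_add]
        field_simp
        push_cast
        ring_nf
        rw [hI2]; norm_num

theorem genus3 : genus 3 (fun _ => 2) = 2 := by decide

end Pool.Agent.H62.HM
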