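import Pool.Agent.H62.HM.Bound

/-!
# Four ends of strictly decreasing growths 57, 43, 40, -140, levels of 1, 2 and 4 necks
-/

set_option autoImplicit false

namespace Pool.Agent.H62.HM

open Finset Complex

/-- growths 57, 43, 40, -140 -/
def Q5 : ℕ → ℝ
  | 0 => 57
  | 1 => 43
  | 2 => 40
  | _ => -140

/-- numbers of necks 1, 2, 4 -/
def n5 : ℕ → ℕ
  | 0 => 1
  | 1 => 2
  | _ => 4

/-- positions 0; 1, -1; a, -a, b, -b -/
noncomputable def p5 (a b : ℂ) : (k : ℕ) → Fin (n5 k) → ℂ
  | 0 => ![0]
  | 1 => ![1, -1]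
  | _ + 2 => ![a, -a, b, -b]

theorem size5_0 : size n5 Q5 0 = 57 := by
  simp [size, Q5, n5]

theorem size5_1 : size n5 Q5 1 = 50 := by
  simp [size, Q5, n5, sum_range_succ]; norm_num

theorem size5_2 : size n5 Q5 2 = 35 := by
  simp [size, Q5, n5, sum_range_succ]; norm_num

theorem ex5 : ∃ a b : ℂ, Balanced 4 n5 Q5 (p5 a b) := by
  obtain ⟨a, ha⟩ := IsAlgClosed.exists_pow_nat_eq (((7 : ℂ) + 14 * I) / 5) (n := 2) (by norm_num)
  obtain ⟨b, hb⟩ := IsAlgClosed.exists_pow_nat_eq (((7 : ℂ) - 14 * I) / 5) (n := 2) (by norm_num)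
  refine ⟨a, b, ?_⟩
  have hI2 : I ^ 2 = -1 := Complex.I_sq
  have hI : I ≠ 0 := Complex.I_ne_zero
  -- basic inequalities
  have xy : a ^ 2 ≠ b ^ 2 := by
    rw [ha, hb]
    intro h
    apply hI
    linear_combination (5 / 28) * h
  have x1 : a ^ 2 ≠ 1 := by
    rw [ha]
    intro h
    have := congrArg Complex.im h
    norm_num at this
  have y1 : b ^ 2 ≠ 1 := by
    rw [hb]
    intro h
    have := congrArg Complex.im h
    norm_num at this
  have x0 : a ≠ 0 := by
    rintro rfl
    have := congrArg Complex.im ha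
    norm_num at this
  have y0 : b ≠ 0 := by
    rintro rfl
    have := congrArg Complex.im hb
    norm_num at this
  have hs : a ^ 2 + b ^ 2 = 14 / 5 := by rw [ha, hb]; ring
  have hq : a ^ 2 * b ^ 2 = 49 / 5 := by
    rw [ha, hb]; ring_nf; rw [hI2]; norm_num
  have a1 : a - 1 ≠ 0 := fun h => x1 (by linear_combination (a + 1) * h)
  have a2 : a + 1 ≠ 0 := fun h => x1 (by linear_combination (a - 1) * h)
  have b1 : b - 1 ≠ 0 := fun h => y1 (by linear_combination (b + 1) * h)
  have b2 : b + 1 ≠ 0 := fun h => y1 (by linear_combination (b - 1) * h)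
  have ab1 : a - b ≠ 0 := fun h => xy (by linear_combination (a + b) * h)
  have ab2 : a + b ≠ 0 := fun h => xy (by linear_combination (a - b) * h)
  refine ⟨?_, ?_, ?_, ?_, ?_⟩
  · intro k hk
    have hk' : k < 3 := by omega
    interval_cases k <;> simp [n5]
  · intro k hk
    have hk' : k < 3 := by omega
    interval_cases k
    · intro i j _
      have hi : (i : ℕ) < 1 := i.2
      have hj : (j : ℕ) < 1 := j.2
      exact Fin.ext (by omega)
    · have hne : (1 : ℂ) ≠ -1 := by norm_num
      intro i j hij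
      change Fin 2 at i j
      fin_cases i <;> fin_cases j
      · rfl
      · exact absurd (show (1 : ℂ) = -1 from hij) hne
      · exact absurd (show (-1 : ℂ) = 1 from hij) hne.symm
      · rfl
    · have ha' : a ≠ -a := fun h => x0 (by linear_combination (1 / 2) * h)
      have hb' : b ≠ -b := fun h => y0 (by linear_combination (1 / 2) * h)
      have h1 : a ≠ b := sub_ne_zero.1 ab1
      have h2 : a ≠ -b := fun h => ab2 (by linear_combination h)
      have h3 : -a ≠ b := fun h => ab2 (by linear_combination -h)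
      have h4 : -a ≠ -b := fun h => ab1 (by linear_combination -h)
      intro i j hij
      change Fin 4 at i j
      fin_cases i <;> fin_cases j
      · rfl
      · exact absurd (show a = -a from hij) ha'
      · exact absurd (show a = b from hij) h1
      · exact absurd (show a = -b from hij) h2
      · exact absurd (show -a = a from hij) ha'.symm
      · rfl
      · exact absurd (show -a = b from hij) h3
      · exact absurd (show -a = -b from hij) h4
      · exact absurd (show b = a from hij) h1.symm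
      · exact absurd (show b = -a from hij) h3.symm
      · rfl
      · exact absurd (show b = -b from hij) hb'
      · exact absurd (show -b = a from hij) h2.symm
      · exact absurd (show -b = -a from hij) h4.symm
      · exact absurd (show -b = b from hij) hb'.symm
      · rfl
  · intro k hk i j
    have hk' : k < 2 := by omega
    interval_cases k
    · change Fin 1 at i
      change Fin 2 at j
      fin_cases i; fin_cases j
      · exact (show (0 : ℂ) ≠ 1 by norm_num)
      · exact (show (0 : ℂ) ≠ -1 by norm_num)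
    · change Fin 2 at i
      change Fin 4 at j
      fin_cases i <;> fin_cases j
      · exact (show (1 : ℂ) ≠ a from fun h => a1 (by linear_combination -h))
      · exact (show (1 : ℂ) ≠ -a from fun h => a2 (by linear_combination h))
      · exact (show (1 : ℂ) ≠ b from fun h => b1 (by linear_combination -h))
      · exact (show (1 : ℂ) ≠ -b from fun h => b2 (by linear_combination h))
      · exact (show (-1 : ℂ) ≠ a from fun h => a2 (by linear_combination -h))
      · exact (show (-1 : ℂ) ≠ -a from fun h => a1 (by linear_combination h))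
      · exact (show (-1 : ℂ) ≠ b from fun h => b2 (by linear_combination -h))
      · exact (show (-1 : ℂ) ≠ -b from fun h => b1 (by linear_combination h))
  · simp [sum_range_succ, Q5]; norm_num
  · intro k hk i
    have hk' : k < 3 := by omega
    unfold force
    rw [sum_erase _ (by simp)]
    interval_cases k
    · have e : (range (4 - 1)).filter (fun l => l + 1 = 0 ∨ l = 0 + 1) = {1} := by decide
      rw [e, sum_singleton, size5_0, size5_1]
      change Fin 1 at i
      fin_cases i
      show ∑ j : Fin 1, 2 * (((57 : ℝ) : ℂ)) ^ 2 / ((0 : ℂ) - (![0] : Fin 1 → ℂ) j) -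
        ∑ j : Fin 2, (((57 : ℝ) : ℂ)) * (((50 : ℝ) : ℂ)) / ((0 : ℂ) - (![1, -1] : Fin 2 → ℂ) j) = 0
      rw [Fin.sum_univ_one, Fin.sum_univ_two]
      simp
      norm_num
    · have e : (range (4 - 1)).filter (fun l => l + 1 = 1 ∨ l = 1 + 1) = {0, 2} := by decide
      rw [e, sum_pair (by norm_num), size5_0, size5_1, size5_2]
      have key : ∀ t : ℂ, t ^ 2 = 1 → 2 * ((50 : ℝ) : ℂ) ^ 2 / (t - -t) -
          (((50 : ℝ) : ℂ) * ((57 : ℝ) : ℂ) / (t - 0) +
            (((50 : ℝ) : ℂ) * ((35 : ℝ) : ℂ) / (t - a) + ((50 : ℝ) : ℂ) * ((35 : ℝ) : ℂ) / (t - -a) +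
              ((50 : ℝ) : ℂ) * ((35 : ℝ) : ℂ) / (t - b) +
              ((50 : ℝ) : ℂ) * ((35 : ℝ) : ℂ) / (t - -b))) = 0 := by
        intro t ht
        have t0 : t ≠ 0 := by
          rintro rfl
          norm_num at ht
        have ta : t ^ 2 - a ^ 2 ≠ 0 := by
          rw [ht]; exact fun h => x1 (by linear_combination -h)
        have tb : t ^ 2 - b ^ 2 ≠ 0 := by
          rw [ht]; exact fun h => y1 (by linear_combination -h)
        have c1 : t - a ≠ 0 := fun h => ta (by linear_combination (t + a) * h)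
        have c2 : t - -a ≠ 0 := fun h => ta (by linear_combination (t - a) * h)
        have c3 : t - b ≠ 0 := fun h => tb (by linear_combination (t + b) * h)
        have c4 : t - -b ≠ 0 := fun h => tb (by linear_combination (t - b) * h)
        have s1 : ((50 : ℝ) : ℂ) * ((35 : ℝ) : ℂ) / (t - a) + ((50 : ℝ) : ℂ) * ((35 : ℝ) : ℂ) / (t - -a)
            = 3500 * t / (t ^ 2 - a ^ 2) := by
          push_cast
          field_simp
          ring
        have s2 : ((50 : ℝ) : ℂ) * ((35 : ℝ) : ℂ) / (t - b) + ((50 : ℝ) : ℂ) * ((35 : ℝ) : ℂ) / (t - -b)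
            = 3500 * t / (t ^ 2 - b ^ 2) := by
          push_cast
          field_simp
          ring
        rw [add_assoc (((50 : ℝ) : ℂ) * ((35 : ℝ) : ℂ) / (t - a) + _), s1, s2, ht]
        rw [ht] at ta tb
        have s3 : 3500 * t / (1 - a ^ 2) + 3500 * t / (1 - b ^ 2) = -350 * t := by
          rw [div_add_div _ _ ta tb, div_eq_iff (mul_ne_zero ta tb)]
          linear_combination (-3500 * t + 350 * t * (-1)) * hs + 350 * t * hq
        rw [s3, sub_zero, sub_neg_eq_add]
        push_cast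
        field_simp
        linear_combination 700 * ht
      change Fin 2 at i
      fin_cases i
      · show ∑ j : Fin 2, 2 * (((50 : ℝ) : ℂ)) ^ 2 / ((1 : ℂ) - (![1, -1] : Fin 2 → ℂ) j) -
          (∑ j : Fin 1, (((50 : ℝ) : ℂ)) * (((57 : ℝ) : ℂ)) / ((1 : ℂ) - (![0] : Fin 1 → ℂ) j) +
          ∑ j : Fin 4, (((50 : ℝ) : ℂ)) * (((35 : ℝ) : ℂ)) /
            ((1 : ℂ) - (![a, -a, b, -b] : Fin 4 → ℂ) j)) = 0
        rw [Fin.sum_univ_one, Fin.sum_univ_two, Fin.sum_univ_four]
        have := key 1 (by norm_num)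
        simpa using this
      · show ∑ j : Fin 2, 2 * (((50 : ℝ) : ℂ)) ^ 2 / ((-1 : ℂ) - (![1, -1] : Fin 2 → ℂ) j) -
          (∑ j : Fin 1, (((50 : ℝ) : ℂ)) * (((57 : ℝ) : ℂ)) / ((-1 : ℂ) - (![0] : Fin 1 → ℂ) j) +
          ∑ j : Fin 4, (((50 : ℝ) : ℂ)) * (((35 : ℝ) : ℂ)) /
            ((-1 : ℂ) - (![a, -a, b, -b] : Fin 4 → ℂ) j)) = 0
        rw [Fin.sum_univ_one, Fin.sum_univ_two, Fin.sum_univ_four]
        have := key (-1) (by norm_num)
        simpa using this
    · have e : (range (4 - 1)).filter (fun l => l + 1 = 2 ∨ l = 2 + 1) = {1} := by decide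
      rw [e, sum_singleton, size5_1, size5_2]
      have key : ∀ t s : ℂ, t ≠ 0 → t ^ 2 ≠ 1 → t ^ 2 ≠ s ^ 2 → t ^ 2 + s ^ 2 = 14 / 5 →
          t ^ 2 * s ^ 2 = 49 / 5 →
          2 * ((35 : ℝ) : ℂ) ^ 2 / (t - -t) + (2 * ((35 : ℝ) : ℂ) ^ 2 / (t - s) +
            2 * ((35 : ℝ) : ℂ) ^ 2 / (t - -s)) -
            (((35 : ℝ) : ℂ) * ((50 : ℝ) : ℂ) / (t - 1) +
              ((35 : ℝ) : ℂ) * ((50 : ℝ) : ℂ) / (t - -1)) = 0 := by
        intro t s t0 t1 ts hs' hq'
        have d1 : t ^ 2 - 1 ≠ 0 := sub_ne_zero.2 t1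
        have d2 : t ^ 2 - s ^ 2 ≠ 0 := sub_ne_zero.2 ts
        have c1 : t - s ≠ 0 := fun h => d2 (by linear_combination (t + s) * h)
        have c2 : t - -s ≠ 0 := fun h => d2 (by linear_combination (t - s) * h)
        have c3 : t - 1 ≠ 0 := fun h => d1 (by linear_combination (t + 1) * h)
        have c4 : t - -1 ≠ 0 := fun h => d1 (by linear_combination (t - 1) * h)
        have s0 : 2 * ((35 : ℝ) : ℂ) ^ 2 / (t - -t) = 1225 / t := by
          push_cast
          have : t - -t ≠ 0 := fun h => t0 (by linear_combination (1 / 2) * h)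
          field_simp
          ring
        have s1 : 2 * ((35 : ℝ) : ℂ) ^ 2 / (t - s) + 2 * ((35 : ℝ) : ℂ) ^ 2 / (t - -s) =
            4900 * t / (t ^ 2 - s ^ 2) := by
          push_cast
          field_simp
          ring
        have s2 : ((35 : ℝ) : ℂ) * ((50 : ℝ) : ℂ) / (t - 1) +
            ((35 : ℝ) : ℂ) * ((50 : ℝ) : ℂ) / (t - -1) = 3500 * t / (t ^ 2 - 1) := by
          push_cast
          field_simp
          ring
        rw [s0, s1, s2]
        have hy : s ^ 2 = 14 / 5 - t ^ 2 := by linear_combination hs'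
        have hx : 5 * (t ^ 2) ^ 2 - 14 * t ^ 2 + 49 = 0 := by
          rw [hy] at hq'
          linear_combination (-5) * hq'
        rw [div_add_div _ _ t0 d2, div_sub_div _ _ (mul_ne_zero t0 d2) d1, div_eq_zero_iff]
        left
        rw [hy]
        linear_combination 70 * hx
      change Fin 4 at i
      fin_cases i
      · show ∑ j : Fin 4, 2 * (((35 : ℝ) : ℂ)) ^ 2 / (a - (![a, -a, b, -b] : Fin 4 → ℂ) j) -
          ∑ j : Fin 2, (((35 : ℝ) : ℂ)) * (((50 : ℝ) : ℂ)) / (a - (![1, -1] : Fin 2 → ℂ) j) = 0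
        rw [Fin.sum_univ_two, Fin.sum_univ_four]
        have := key a b x0 x1 xy hs hq
        simp at this ⊢
        linear_combination this
      · show ∑ j : Fin 4, 2 * (((35 : ℝ) : ℂ)) ^ 2 / (-a - (![a, -a, b, -b] : Fin 4 → ℂ) j) -
          ∑ j : Fin 2, (((35 : ℝ) : ℂ)) * (((50 : ℝ) : ℂ)) / (-a - (![1, -1] : Fin 2 → ℂ) j) = 0
        rw [Fin.sum_univ_two, Fin.sum_univ_four]
        have := key (-a) b (neg_ne_zero.2 x0) (by rw [neg_sq]; exact x1) (by rw [neg_sq]; exact xy)
          (by rw [neg_sq]; exact hs) (by rw [neg_sq]; exact hq)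
        simp at this ⊢
        linear_combination this
      · show ∑ j : Fin 4, 2 * (((35 : ℝ) : ℂ)) ^ 2 / (b - (![a, -a, b, -b] : Fin 4 → ℂ) j) -
          ∑ j : Fin 2, (((35 : ℝ) : ℂ)) * (((50 : ℝ) : ℂ)) / (b - (![1, -1] : Fin 2 → ℂ) j) = 0
        rw [Fin.sum_univ_two, Fin.sum_univ_four]
        have := key b a y0 y1 xy.symm (by rw [add_comm]; exact hs) (by rw [mul_comm]; exact hq)
        simp at this ⊢
        linear_combination this
      · show ∑ j : Fin 4, 2 * (((35 : ℝ) : ℂ)) ^ 2 / (-b - (![a, -a, b, -b] : Fin 4 → ℂ) j) -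
          ∑ j : Fin 2, (((35 : ℝ) : ℂ)) * (((50 : ℝ) : ℂ)) / (-b - (![1, -1] : Fin 2 → ℂ) j) = 0
        rw [Fin.sum_univ_two, Fin.sum_univ_four]
        have := key (-b) a (neg_ne_zero.2 y0) (by rw [neg_sq]; exact y1)
          (by rw [neg_sq]; exact xy.symm) (by rw [neg_sq, add_comm]; exact hs)
          (by rw [neg_sq, mul_comm]; exact hq)
        simp at this ⊢
        linear_combination this

theorem genus5 : genus 4 n5 = 4 := by decide

end Pool.Agent.H62.HM
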