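import Pool.Agent.H62.HM.Struct

/-!
# Balanced configurations of one neck and regular polygons
-/

set_option autoImplicit false

namespace Pool.Agent.H62.HM

open Finset Polynomial

/-- a balanced configuration from finite sets of points -/
theorem of_sets {M : ℕ} {n : ℕ → ℕ} {Q : ℕ → ℝ} (R : ℕ → Finset ℂ)
    (hc : ∀ k, k ≤ M → (R k).card = n k) (hn : ∀ k, k ≤ M → 1 ≤ n k)
    (hd : ∀ k, k + 1 ≤ M → Disjoint (R k) (R (k + 1))) (hQ : ∑ j ∈ range (M + 2), Q j = 0)
    (hF : ∀ k, k ≤ M → ∀ z ∈ R k,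
      (size n Q k : ℂ) ^ 2 * (2 * ∑ w ∈ (R k).erase z, 1 / (z - w)) =
        (if 1 ≤ k then (size n Q k : ℂ) * (size n Q (k - 1) : ℂ) * ∑ v ∈ R (k - 1), 1 / (z - v)
          else 0) +
        if k + 1 ≤ M then (size n Q k : ℂ) * (size n Q (k + 1) : ℂ) * ∑ v ∈ R (k + 1), 1 / (z - v)
          else 0) :
    ∃ p : (k : ℕ) → Fin (n k) → ℂ, Balanced (M + 2) n Q p := by
  classical
  set p : (k : ℕ) → Fin (n k) → ℂ := fun k => if h : (R k).card = n k then
    fun i => (((R k).equivFinOfCardEq h).symm i : ℂ) else fun _ => 0 with hp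
  have hpk : ∀ k, ∀ h : k ≤ M, p k = fun i => (((R k).equivFinOfCardEq (hc k h)).symm i : ℂ) := by
    intro k h
    rw [hp]
    simp only [dif_pos (hc k h)]
  have hinj : ∀ k, k ≤ M → Function.Injective (p k) := by
    intro k h
    rw [hpk k h]
    exact Subtype.val_injective.comp ((R k).equivFinOfCardEq (hc k h)).symm.injective
  have himg : ∀ k, k ≤ M → univ.image (p k) = R k := by
    intro k h
    ext w
    simp only [mem_image, mem_univ, true_and]
    rw [hpk k h]
    constructor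
    · rintro ⟨i, rfl⟩
      exact (((R k).equivFinOfCardEq (hc k h)).symm i).2
    · intro hw
      exact ⟨(R k).equivFinOfCardEq (hc k h) ⟨w, hw⟩, by simp⟩
  have hpm : ∀ k, k ≤ M → ∀ i, p k i ∈ R k := fun k h i => by
    rw [← himg k h]; exact mem_image_of_mem _ (mem_univ i)
  refine ⟨p, fun k hk => hn k (by omega), fun k hk => hinj k (by omega), ?_, hQ, ?_⟩
  · intro k hk i j e
    have := hpm k (by omega) i
    rw [e] at this
    exact (Finset.disjoint_left.1 (hd k (by omega))) this (hpm (k + 1) (by omega) j)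
  · intro k hk i
    have hkM : k ≤ M := by omega
    have hT : ∀ l, l < M + 1 → ∑ j : Fin (n l), (size n Q k : ℂ) * (size n Q l : ℂ) / (p k i - p l j)
        = (size n Q k : ℂ) * (size n Q l : ℂ) * ∑ v ∈ R l, 1 / (p k i - v) := by
      intro l hl
      rw [← himg l (by omega), sum_image fun a _ b _ h => hinj l (by omega) h, mul_sum]
      refine sum_congr rfl fun j _ => ?_
      ring
    have hA : ∑ j ∈ univ.erase i, 2 * (size n Q k : ℂ) ^ 2 / (p k i - p k j) =
        (size n Q k : ℂ) ^ 2 * (2 * ∑ w ∈ (R k).erase (p k i), 1 / (p k i - w)) := by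
      rw [← himg k hkM, ← image_erase (hinj k hkM), sum_image fun a _ b _ h => hinj k hkM h,
        mul_sum, mul_sum]
      refine sum_congr rfl fun j _ => ?_
      ring
    have e : M + 2 - 1 = M + 1 := rfl
    unfold force
    rw [hA, e, sum_congr rfl fun l hl => hT l (mem_range.1 (mem_filter.1 hl).1),
      filter_sum M k _ hkM, hF k hkM _ (hpm k hkM i), sub_self]

/-- the zeros of `X ^ m - w` -/
noncomputable def gon (m : ℕ) (w : ℂ) : Finset ℂ := (X ^ m - C w : ℂ[X]).roots.toFinset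

variable {m : ℕ} {w : ℂ}

theorem gon_sep (hm : 2 ≤ m) (hw : w ≠ 0) : (X ^ m - C w : ℂ[X]).Separable :=
  separable_X_pow_sub_C w (by exact_mod_cast (by omega : m ≠ 0)) hw

theorem mem_gon (hm : 2 ≤ m) (hw : w ≠ 0) (z : ℂ) : z ∈ gon m w ↔ z ^ m = w := by
  unfold gon
  rw [Multiset.mem_toFinset, mem_roots (gon_sep hm hw).ne_zero]
  simp [IsRoot, sub_eq_zero]

theorem card_gon (hm : 2 ≤ m) (hw : w ≠ 0) : (gon m w).card = m := by
  unfold gon
  rw [Multiset.toFinset_card_of_nodup (nodup_roots (gon_sep hm hw)),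
    ← (IsAlgClosed.splits (X ^ m - C w : ℂ[X])).natDegree_eq_card_roots, natDegree_X_pow_sub_C]

theorem sum_gon (hm : 2 ≤ m) (hw : w ≠ 0) {z : ℂ} (hz : z ^ m ≠ w) :
    ∑ v ∈ gon m w, 1 / (z - v) = m * z ^ (m - 1) / (z ^ m - w) := by
  unfold gon
  rw [Pool.Agent.H22.NB.sum_roots (gon_sep hm hw) (by simpa [sub_eq_zero] using hz)]
  simp [derivative_X_pow]

theorem sum_gon_self (hm : 2 ≤ m) (hw : w ≠ 0) {z : ℂ} (hz : z ^ m = w) :
    2 * ∑ v ∈ (gon m w).erase z, 1 / (z - v) = (m - 1) / z := by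
  have hz0 : z ≠ 0 := by
    rintro rfl
    rw [zero_pow (by omega)] at hz
    exact hw hz.symm
  unfold gon
  rw [Pool.Agent.H22.NB.sum_other (gon_sep hm hw) (by simp [hz])]
  have e1 : (derivative (X ^ m - C w : ℂ[X])).eval z = m * z ^ (m - 1) := by
    simp [derivative_X_pow]
  have e2 : (derivative (derivative (X ^ m - C w : ℂ[X]))).eval z =
      m * ((m - 1) * z ^ (m - 2)) := by
    rw [derivative_sub, derivative_C, sub_zero, derivative_X_pow, derivative_C_mul,
      derivative_X_pow, eval_mul, eval_mul, eval_C, eval_C, eval_pow, eval_X,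
      Nat.cast_sub (by omega), Nat.cast_one, Nat.sub_sub]
  rw [e1, e2]
  have hm0 : (m : ℂ) ≠ 0 := by exact_mod_cast (by omega : m ≠ 0)
  obtain ⟨j, rfl⟩ : ∃ j, m = j + 2 := ⟨m - 2, by omega⟩
  have e3 : j + 2 - 1 = j + 1 := rfl
  have e4 : j + 2 - 2 = j := rfl
  rw [e3, e4, pow_succ]
  field_simp

/-- numbers of necks 1, m, ..., m -/
def nn (m : ℕ) (k : ℕ) : ℕ := if k = 0 then 1 else m

/-- partial sums of the moment identity -/
noncomputable def HH (m : ℕ) (Q : ℕ → ℝ) (k : ℕ) : ℝ :=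
  ∑ j ∈ range k, ds Q (j + 2) * (m * Q (j + 1) - ds Q (j + 2))

theorem HH_succ (m : ℕ) (Q : ℕ → ℝ) (k : ℕ) :
    HH m Q (k + 1) = HH m Q k + ((m - 1) * ds Q (k + 2) ^ 2 - m * ds Q (k + 1) * ds Q (k + 2)) := by
  unfold HH
  rw [sum_range_succ, ds_succ Q (k + 1)]
  ring

/-- the `m`-th powers of the positions -/
noncomputable def WW (m : ℕ) (Q : ℕ → ℝ) : ℕ → ℝ
  | 0 => 1
  | 1 => 1
  | l + 2 => WW m Q (l + 1) * (1 - m * ds Q (l + 2) * ds Q (l + 3) / HH m Q (l + 1))

/-- the levels -/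
noncomputable def RR (m : ℕ) (Q : ℕ → ℝ) : ℕ → Finset ℂ
  | 0 => {0}
  | l + 1 => gon m (WW m Q (l + 1) : ℂ)

theorem gons {M m : ℕ} {Q : ℕ → ℝ} (hm : 2 ≤ m) (hpos : ∀ k, k ≤ M → 0 < ds Q (k + 1))
    (hH : ∀ l, 1 ≤ l → l + 1 ≤ M → HH m Q l ≠ 0 ∧ HH m Q l ≠ m * ds Q (l + 1) * ds Q (l + 2))
    (hHM : HH m Q M = 0) (hQ : ∑ j ∈ range (M + 2), Q j = 0) :
    ∃ p : (k : ℕ) → Fin (nn m k) → ℂ, Balanced (M + 2) (nn m) Q p := by
  have hm0 : (m : ℝ) ≠ 0 := by exact_mod_cast (by omega : m ≠ 0)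
  have hmC : (m : ℂ) ≠ 0 := by exact_mod_cast (by omega : m ≠ 0)
  have hW : ∀ l, l ≤ M → WW m Q l ≠ 0 := by
    intro l
    induction l using Nat.strong_induction_on with
    | _ l ih =>
      intro hl
      match l with
      | 0 => exact one_ne_zero
      | 1 => exact one_ne_zero
      | l + 2 =>
        show WW m Q (l + 1) * (1 - m * ds Q (l + 2) * ds Q (l + 3) / HH m Q (l + 1)) ≠ 0
        obtain ⟨h1, h2⟩ := hH (l + 1) (by omega) hl
        refine mul_ne_zero (ih (l + 1) (by omega) (by omega)) ?_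
        intro h
        apply h2
        rw [sub_eq_zero, eq_div_iff h1, one_mul] at h
        exact h
  have hstep : ∀ l, 1 ≤ l → l + 1 ≤ M →
      WW m Q (l + 1) = WW m Q l * (1 - m * ds Q (l + 1) * ds Q (l + 2) / HH m Q l) := by
    intro l h1 _
    obtain ⟨j, rfl⟩ : ∃ j, l = j + 1 := ⟨l - 1, by omega⟩
    rfl
  have hne : ∀ l, 1 ≤ l → l + 1 ≤ M → WW m Q l ≠ WW m Q (l + 1) := by
    intro l h1 h2
    rw [hstep l h1 h2]
    intro h
    have h3 := hW l (by omega)
    have h4 : WW m Q l * (m * ds Q (l + 1) * ds Q (l + 2) / HH m Q l) = 0 := by linarith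
    have h5 : m * ds Q (l + 1) * ds Q (l + 2) / HH m Q l ≠ 0 :=
      div_ne_zero (mul_ne_zero (mul_ne_zero hm0 (hpos l (by omega)).ne')
        (hpos (l + 1) (by omega)).ne') (hH l h1 h2).1
    exact (mul_ne_zero h3 h5) h4
  have hWC : ∀ l, l ≤ M → (WW m Q l : ℂ) ≠ 0 := fun l hl => by exact_mod_cast hW l hl
  have hR : ∀ l, 1 ≤ l → RR m Q l = gon m (WW m Q l : ℂ) := by
    intro l hl
    obtain ⟨j, rfl⟩ : ∃ j, l = j + 1 := ⟨l - 1, by omega⟩
    rfl
  have hs : ∀ k, 1 ≤ k → size (nn m) Q k = ds Q (k + 1) / m := by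
    intro k hk
    have : nn m k = m := by unfold nn; rw [if_neg (by omega)]
    unfold size
    rw [this]
    rfl
  have hs0 : size (nn m) Q 0 = ds Q 1 := by
    unfold size nn
    simp [ds]
  have hz0 : ∀ k, 1 ≤ k → k ≤ M → ∀ z ∈ RR m Q k, z ≠ 0 ∧ z ^ m = (WW m Q k : ℂ) := by
    intro k h1 h2 z hz
    rw [hR k h1, mem_gon hm (hWC k h2)] at hz
    refine ⟨?_, hz⟩
    rintro rfl
    rw [zero_pow (by omega)] at hz
    exact hWC k h2 hz.symm
  have hpow : ∀ z : ℂ, z ≠ 0 → z ^ (m - 1) = z ^ m / z := by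
    intro z hz
    rw [eq_div_iff hz, ← pow_succ]
    congr 1
    omega
  have hup : ∀ k, 1 ≤ k → k ≤ M → ∀ z ∈ RR m Q k,
      (if k + 1 ≤ M then (size (nn m) Q k : ℂ) * (size (nn m) Q (k + 1) : ℂ) *
        ∑ v ∈ RR m Q (k + 1), 1 / (z - v) else 0) = ((HH m Q k / m ^ 2 : ℝ) : ℂ) / z := by
    intro k h1 h2 z hz
    obtain ⟨z0, zm⟩ := hz0 k h1 h2 z hz
    by_cases h : k + 1 ≤ M
    · rw [if_pos h, hR (k + 1) (by omega), sum_gon hm (hWC (k + 1) h), hpow z z0, zm, hs k h1,
        hs (k + 1) (by omega)]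
      · have e1 := hstep k h1 h
        have e2 := (hH k h1 h).1
        have e3 := hW k h2
        have e4 := (hpos k h2).ne'
        have e5 := (hpos (k + 1) h).ne'
        have e6 : WW m Q k - WW m Q (k + 1) =
            WW m Q k * (m * ds Q (k + 1) * ds Q (k + 2) / HH m Q k) := by
          rw [e1]; ring
        have e7 : ds Q (k + 1) / m * (ds Q (k + 1 + 1) / m) *
            (m * WW m Q k / (WW m Q k - WW m Q (k + 1))) = HH m Q k / m ^ 2 := by
          rw [e6]
          field_simp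
        rw [← e7]
        push_cast
        field_simp
      · rw [zm]
        exact_mod_cast hne k h1 h
    · rw [if_neg h]
      have : k = M := by omega
      rw [this, hHM]
      simp
  have hdown : ∀ k, 1 ≤ k → k ≤ M → ∀ z ∈ RR m Q k,
      (size (nn m) Q k : ℂ) * (size (nn m) Q (k - 1) : ℂ) * ∑ v ∈ RR m Q (k - 1), 1 / (z - v) =
        (((m * ds Q (k + 1) * ds Q k - HH m Q (k - 1)) / m ^ 2 : ℝ) : ℂ) / z := by
    intro k h1 h2 z hz
    obtain ⟨z0, zm⟩ := hz0 k h1 h2 z hz
    obtain ⟨j, rfl⟩ : ∃ j, k = j + 1 := ⟨k - 1, by omega⟩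
    rw [Nat.add_sub_cancel]
    rcases Nat.eq_zero_or_pos j with rfl | hj
    · have e1 : RR m Q 0 = {0} := rfl
      rw [e1, sum_singleton, hs0, hs (0 + 1) (by omega)]
      have e2 : HH m Q 0 = 0 := by simp [HH]
      rw [e2]
      push_cast
      field_simp
      ring
    · rw [hR j hj, sum_gon hm (hWC j (by omega)), hpow z z0, zm, hs j hj, hs (j + 1) (by omega)]
      · have e1 := hstep j hj h2
        have e2 := (hH j hj h2).1
        have e3 := hW j (by omega)
        have e4 := (hpos j (by omega)).ne'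
        have e5 := (hpos (j + 1) h2).ne'
        have e6 : WW m Q (j + 1) - WW m Q j =
            - (WW m Q j * (m * ds Q (j + 1) * ds Q (j + 2) / HH m Q j)) := by
          rw [e1]; ring
        have e7 : ds Q (j + 1 + 1) / m * (ds Q (j + 1) / m) *
            (m * WW m Q (j + 1) / (WW m Q (j + 1) - WW m Q j)) =
            (m * ds Q (j + 1 + 1) * ds Q (j + 1) - HH m Q j) / m ^ 2 := by
          rw [e6, e1]
          field_simp
          ring
        rw [← e7]
        push_cast
        field_simp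
      · rw [zm]
        exact_mod_cast (hne j hj h2).symm
  refine of_sets (RR m Q) ?_ ?_ ?_ hQ ?_
  · intro k hk
    rcases Nat.eq_zero_or_pos k with rfl | h
    · simp [RR, nn]
    · rw [hR k h, card_gon hm (hWC k hk)]
      unfold nn
      rw [if_neg (by omega)]
  · intro k hk
    unfold nn
    split_ifs <;> omega
  · intro k hk
    rw [Finset.disjoint_left]
    intro z hz hz'
    obtain ⟨z0, zm⟩ := hz0 (k + 1) (by omega) hk z hz'
    rcases Nat.eq_zero_or_pos k with rfl | h
    · have e1 : RR m Q 0 = {0} := rfl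
      rw [e1, mem_singleton] at hz
      exact z0 hz
    · have h3 := (hz0 k h (by omega) z hz).2
      rw [zm] at h3
      exact hne k h hk (by exact_mod_cast h3.symm)
  · intro k hk z hz
    rcases Nat.eq_zero_or_pos k with rfl | h
    · have e1 : RR m Q 0 = {0} := rfl
      rw [e1, mem_singleton] at hz
      subst hz
      rw [if_neg (by omega), zero_add, e1]
      have e2 : ({0} : Finset ℂ).erase 0 = ∅ := by simp
      rw [e2, sum_empty, mul_zero, mul_zero]
      by_cases h : 0 + 1 ≤ M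
      · have e3 : (0 : ℂ) ^ m ≠ (WW m Q (0 + 1) : ℂ) := by
          rw [zero_pow (by omega)]
          exact (hWC (0 + 1) h).symm
        rw [if_pos h, hR (0 + 1) (by omega), sum_gon hm (hWC (0 + 1) h) e3, zero_pow (by omega)]
        simp
      · rw [if_neg h]
    · obtain ⟨z0, zm⟩ := hz0 k h hk z hz
      rw [if_pos (show 1 ≤ k from h), hup k h hk z hz, hdown k h hk z hz, hR k h,
        sum_gon_self hm (hWC k hk) zm, hs k h]
      obtain ⟨j, rfl⟩ : ∃ j, k = j + 1 := ⟨k - 1, by omega⟩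
      have e1 := HH_succ m Q j
      rw [Nat.add_sub_cancel, e1]
      push_cast
      field_simp
      ring

/-- the conditions of `gons` for strictly decreasing growths -/
theorem gons' {M m : ℕ} {Q : ℕ → ℝ} (hm : 2 ≤ m) (hpos : ∀ j, j ≤ M → 0 < Q j)
    (hdec : ∀ j, j + 1 ≤ M → Q (j + 1) < Q j)
    (hHM : HH m Q M = 0) (hQ : ∑ j ∈ range (M + 2), Q j = 0) :
    ∃ p : (k : ℕ) → Fin (nn m k) → ℂ, Balanced (M + 2) (nn m) Q p := by
  have hmR : (2 : ℝ) ≤ m := by exact_mod_cast hm
  have hd : ∀ k, k ≤ M → 0 < ds Q (k + 1) := by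
    intro k
    induction k with
    | zero => intro h; simpa [ds] using hpos 0 h
    | succ k ih =>
      intro h
      rw [ds_succ]
      have := ih (by omega)
      have := hpos (k + 1) h
      linarith
  -- the terms change sign once
  have hterm : ∀ j, j + 1 ≤ M → m * Q (j + 1) - ds Q (j + 2) ≤ 0 → ∀ i, j < i → i + 1 ≤ M →
      ds Q (i + 2) * (m * Q (i + 1) - ds Q (i + 2)) < 0 := by
    intro j hj h0 i hi
    have key : ∀ i, j < i → i + 1 ≤ M → m * Q (i + 1) - ds Q (i + 2) < 0 := by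
      intro i hi
      induction i, hi using Nat.le_induction with
      | base =>
        intro h
        have h1 := hdec (j + 1) h
        have h2 := hpos (j + 1 + 1) h
        have h3 := ds_succ Q (j + 2)
        have h4 : (m : ℝ) * Q (j + 1 + 1) < m * Q (j + 1) :=
          mul_lt_mul_of_pos_left h1 (by linarith)
        show m * Q (j + 1 + 1) - ds Q (j + 1 + 2) < 0
        have h5 : ds Q (j + 1 + 2) = ds Q (j + 2) + Q (j + 2) := h3
        have h6 : Q (j + 1 + 1) = Q (j + 2) := rfl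
        rw [h5]
        rw [h6] at h2 h4
        rw [h6]
        linarith
      | succ i hi ih =>
        intro h
        have h0 := ih (by omega)
        have h1 := hdec (i + 1) h
        have h2 := hpos (i + 1 + 1) h
        have h3 := ds_succ Q (i + 2)
        have h4 : (m : ℝ) * Q (i + 1 + 1) < m * Q (i + 1) :=
          mul_lt_mul_of_pos_left h1 (by linarith)
        have h5 : ds Q (i + 1 + 2) = ds Q (i + 2) + Q (i + 2) := h3
        have h6 : Q (i + 1 + 1) = Q (i + 2) := rfl
        rw [h5]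
        rw [h6] at h2 h4
        rw [h6]
        linarith
    intro h
    exact mul_neg_of_pos_of_neg (hd (i + 1) h) (key i hi h)
  -- positivity of the partial sums
  have hHpos : ∀ l, 1 ≤ l → l + 1 ≤ M → 0 < HH m Q l := by
    intro l h1 h2
    by_contra hcon
    push Not at hcon
    -- some term up to `l` is nonpositive
    obtain ⟨j, hj, hj0⟩ : ∃ j ∈ range l, ds Q (j + 2) * (m * Q (j + 1) - ds Q (j + 2)) ≤ 0 := by
      by_contra hno
      push Not at hno
      have : 0 < HH m Q l := sum_pos hno ⟨0, mem_range.2 (by omega)⟩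
      linarith
    rw [mem_range] at hj
    have hj1 : m * Q (j + 1) - ds Q (j + 2) ≤ 0 := by
      by_contra hc
      push Not at hc
      have := mul_pos (hd (j + 1) (by omega)) hc
      have e : ds Q (j + 1 + 1) = ds Q (j + 2) := rfl
      rw [e] at this
      linarith
    have hneg : ∀ i, l ≤ i → i < M → HH m Q (i + 1) < 0 := by
      intro i hi
      induction i, hi using Nat.le_induction with
      | base =>
        intro h
        have := hterm j (by omega) hj1 l hj (by omega)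
        unfold HH at hcon ⊢
        rw [sum_range_succ]
        linarith
      | succ i hi ih =>
        intro h
        have h3 := ih (by omega)
        have := hterm j (by omega) hj1 (i + 1) (by omega) (by omega)
        unfold HH at h3 ⊢
        rw [sum_range_succ]
        linarith
    have := hneg (M - 1) (by omega) (by omega)
    rw [Nat.sub_add_cancel (by omega)] at this
    linarith
  have hHlt : ∀ l, l ≤ M → HH m Q l ≤ m * ds Q (l + 1) ^ 2 - m * ds Q 1 ^ 2 := by
    intro l
    induction l with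
    | zero => intro _; simp [HH]
    | succ l ih =>
      intro h
      have h1 := ih (by omega)
      have h2 := HH_succ m Q l
      have h3 := hd l (by omega)
      have h4 := hpos (l + 1) h
      have h5 := ds_succ Q (l + 1)
      have h6 : ds Q (l + 1) < ds Q (l + 2) := by rw [h5]; linarith
      have h7 : (m : ℝ) * ds Q (l + 1) * ds Q (l + 1) ≤ m * ds Q (l + 1) * ds Q (l + 2) :=
        mul_le_mul_of_nonneg_left h6.le (by positivity)
      have h8 : 0 ≤ ds Q (l + 2) ^ 2 := sq_nonneg _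
      rw [h2]
      show _ ≤ m * ds Q (l + 2) ^ 2 - m * ds Q 1 ^ 2
      nlinarith
  refine gons hm hd (fun l h1 h2 => ⟨(hHpos l h1 h2).ne', ?_⟩) hHM hQ
  apply ne_of_lt
  have h3 := hHlt l (by omega)
  have h4 := hd l (by omega)
  have h5 := hd 0 (by omega)
  have h6 := ds_succ Q (l + 1)
  have h7 := hpos (l + 1) h2
  have h8 : (m : ℝ) * ds Q (l + 1) * ds Q (l + 1) ≤ m * ds Q (l + 1) * ds Q (l + 2) :=
    mul_le_mul_of_nonneg_left (by rw [h6]; linarith) (by positivity)
  have h9 : 0 < (m : ℝ) * ds Q 1 ^ 2 := by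
    have : 0 < ds Q 1 := h5
    positivity
  nlinarith

/-- growths q, 1 + s M, ..., 1 + s -/
noncomputable def FF (M : ℕ) (s q : ℝ) (j : ℕ) : ℝ := if j = 0 then q else 1 + s * (M + 1 - j)

theorem ds_congr {Q Q' : ℕ → ℝ} {M : ℕ} (h : ∀ j, j ≤ M → Q j = Q' j) (k : ℕ) (hk : k ≤ M + 1) :
    ds Q k = ds Q' k := by
  unfold ds
  exact sum_congr rfl fun j hj => h j (by rw [mem_range] at hj; omega)

theorem HH_congr {Q Q' : ℕ → ℝ} {M m : ℕ} (h : ∀ j, j ≤ M → Q j = Q' j) :
    HH m Q M = HH m Q' M := by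
  unfold HH
  refine sum_congr rfl fun j hj => ?_
  rw [mem_range] at hj
  rw [ds_congr h (j + 2) (by omega), h (j + 1) (by omega)]

theorem HH_one (m M : ℕ) : 6 * HH m (fun _ => 1) M =
    3 * m * ((M + 1) * (M + 2) - 2) - ((M + 1) * (M + 2) * (2 * M + 3) - 6) := by
  have hd : ∀ k, ds (fun _ => (1 : ℝ)) k = k := by intro k; simp [ds]
  unfold HH
  simp only [hd]
  induction M with
  | zero => simp; norm_num
  | succ M ih =>
    rw [sum_range_succ, mul_add, ih]
    push_cast
    ring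

theorem exists_growths {M m : ℕ} (hM : 2 ≤ M) (hm : 2 * (M + 2) ≤ 3 * m) :
    ∃ Q : ℕ → ℝ, (∀ j, j ≤ M → 0 < Q j) ∧ (∀ j, j + 1 ≤ M → Q (j + 1) < Q j) ∧
      HH m Q M = 0 ∧ ∑ j ∈ range (M + 2), Q j = 0 := by
  have hMR : (2 : ℝ) ≤ M := by exact_mod_cast hM
  have hmR : 2 * ((M : ℝ) + 2) ≤ 3 * m := by exact_mod_cast hm
  -- positivity at equal growths
  have h1 : 0 < HH m (fun _ => 1) M := by
    have h2 := HH_one m M
    have h3 : 0 ≤ (3 * (m : ℝ) - 2 * (M + 2)) * ((M + 1) * (M + 2) - 2) :=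
      mul_nonneg (by linarith) (by nlinarith)
    have h4 : 0 < (M : ℝ) * (M - 1) := mul_pos (by linarith) (by linarith)
    nlinarith
  -- small `s`
  obtain ⟨s, hs, hs1⟩ : ∃ s : ℝ, 0 < s ∧ 0 < HH m (fun j => 1 + s * (M + 1 - j)) M := by
    have hc : Continuous fun s : ℝ => HH m (fun j => 1 + s * ((M : ℝ) + 1 - j)) M := by
      unfold HH ds
      fun_prop
    have h0 : 0 < HH m (fun j => 1 + (0 : ℝ) * ((M : ℝ) + 1 - j)) M := by
      simpa using h1
    have h2 := hc.continuousAt.eventually (lt_mem_nhds h0)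
    obtain ⟨ε, hε, h3⟩ := Metric.eventually_nhds_iff.1 h2
    refine ⟨ε / 2, by linarith, h3 ?_⟩
    rw [Real.dist_eq, sub_zero, abs_of_pos (by linarith)]
    linarith
  have hF0 : ∀ q, FF M s q 0 = q := fun q => by simp [FF]
  have hF1 : ∀ q j, 1 ≤ j → FF M s q j = 1 + s * (M + 1 - j) := fun q j hj => by
    unfold FF; rw [if_neg (by omega)]
  have hFpos : ∀ q j, 1 ≤ j → j ≤ M → 1 < FF M s q j := by
    intro q j h1 h2
    rw [hF1 q j h1]
    have : (j : ℝ) ≤ M := by exact_mod_cast h2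
    have := mul_pos hs (by linarith : 0 < (M : ℝ) + 1 - j)
    linarith
  have hFle : ∀ q j, 1 ≤ j → FF M s q j ≤ 1 + s * (M + 1) := by
    intro q j h1
    rw [hF1 q j h1]
    have : (0 : ℝ) ≤ j := Nat.cast_nonneg j
    have := mul_nonneg hs.le this
    linarith
  -- continuity in `q`
  have hcq : Continuous fun q : ℝ => HH m (FF M s q) M := by
    have h2 : ∀ j, Continuous fun q : ℝ => FF M s q j := by
      intro j
      unfold FF
      split_ifs
      · exact continuous_id
      · exact continuous_const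
    unfold HH ds
    fun_prop
  obtain ⟨q0, hq0⟩ : ∃ q0, q0 = 1 + s * ((M : ℝ) + 1) := ⟨_, rfl⟩
  have hq0pos : 1 < q0 := by
    rw [hq0]
    have := mul_pos hs (by linarith : 0 < (M : ℝ) + 1)
    linarith
  have ha : 0 < HH m (FF M s q0) M := by
    have : FF M s q0 = fun j : ℕ => 1 + s * ((M : ℝ) + 1 - j) := by
      funext j
      rcases Nat.eq_zero_or_pos j with rfl | h
      · rw [hF0, hq0]; simp
      · exact hF1 q0 j h
    rw [this]
    exact hs1
  obtain ⟨q1, hq1⟩ : ∃ q1, q1 = (m : ℝ) * q0 + q0 := ⟨_, rfl⟩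
  have hmpos : (0 : ℝ) ≤ m := Nat.cast_nonneg m
  have hq01 : q0 ≤ q1 := by
    rw [hq1]
    have := mul_nonneg hmpos (by linarith : 0 ≤ q0)
    linarith
  have hdge : ∀ q, 0 < q → ∀ k, k ≤ M → q ≤ ds (FF M s q) (k + 1) := by
    intro q hq k
    induction k with
    | zero => intro _; simp [ds, hF0]
    | succ k ih =>
      intro h
      have h1 := ih (by omega)
      rw [ds_succ]
      have := hFpos q (k + 1) (by omega) h
      linarith
  have hb : HH m (FF M s q1) M < 0 := by
    unfold HH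
    apply sum_neg
    · intro j hj
      rw [mem_range] at hj
      have h2 := hdge q1 (by linarith) (j + 1) (by omega)
      have h3 := hFle q1 (j + 1) (by omega)
      have h4 : (m : ℝ) * FF M s q1 (j + 1) ≤ m * q0 :=
        mul_le_mul_of_nonneg_left (by rw [hq0]; exact h3) hmpos
      have h5 : ds (FF M s q1) (j + 1 + 1) = ds (FF M s q1) (j + 2) := rfl
      rw [h5] at h2
      exact mul_neg_of_pos_of_neg (by linarith) (by linarith)
    · exact ⟨0, mem_range.2 (by omega)⟩
  obtain ⟨q, hq, hq2⟩ : ∃ q ∈ Set.Icc q0 q1, HH m (FF M s q) M = 0 := by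
    have := intermediate_value_Icc' hq01 hcq.continuousOn
    exact this ⟨hb.le, ha.le⟩
  refine ⟨fun j => if j ≤ M then FF M s q j else - ∑ i ∈ range (M + 1), FF M s q i, ?_, ?_, ?_, ?_⟩
  · intro j hj
    simp only [if_pos hj]
    rcases Nat.eq_zero_or_pos j with rfl | h
    · rw [hF0]
      linarith [hq.1]
    · linarith [hFpos q j h hj]
  · intro j hj
    simp only [if_pos hj, if_pos (show j ≤ M by omega)]
    rcases Nat.eq_zero_or_pos j with rfl | h
    · rw [hF0, hF1 q (0 + 1) (by omega)]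
      have := hq.1
      rw [hq0] at this
      push_cast
      linarith
    · rw [hF1 q j h, hF1 q (j + 1) (by omega)]
      push_cast
      linarith
  · rw [← hq2]
    exact HH_congr fun j hj => by simp only [if_pos hj]
  · rw [sum_range_succ, if_neg (by omega), sum_congr rfl fun j hj =>
      if_pos (show j ≤ M by rw [mem_range] at hj; omega)]
    ring

/-- strictly decreasing growths, levels of `1, m, ..., m` necks -/
theorem exists_strict (N m : ℕ) (hN : 4 ≤ N) (hm : 2 * N ≤ 3 * m) :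
    ∃ (n : ℕ → ℕ) (Q : ℕ → ℝ) (p : (k : ℕ) → Fin (n k) → ℂ), Balanced N n Q p ∧
      (∀ j, j + 1 < N → Q (j + 1) < Q j) ∧ n 0 = 1 ∧ (∀ k, 1 ≤ k → n k = m) ∧
      genus N n = (N - 2) * (m - 1) := by
  obtain ⟨M, rfl⟩ : ∃ M, N = M + 2 := ⟨N - 2, by omega⟩
  obtain ⟨Q, hpos, hdec, hH, hQ⟩ := exists_growths (by omega : 2 ≤ M) hm
  obtain ⟨p, hp⟩ := gons' (by omega : 2 ≤ m) hpos hdec hH hQ
  refine ⟨nn m, Q, p, hp, ?_, rfl, ?_, ?_⟩
  · intro j hj
    rcases Nat.lt_or_ge j M with h | h
    · exact hdec j (by omega)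
    · obtain rfl : j = M := by omega
      rw [sum_range_succ] at hQ
      have h2 : 0 < ∑ i ∈ range (j + 1), Q i :=
        sum_pos (fun i hi => hpos i (by rw [mem_range] at hi; omega)) ⟨0, mem_range.2 (by omega)⟩
      have := hpos j le_rfl
      linarith
  · intro k hk
    unfold nn
    rw [if_neg (by omega)]
  · unfold genus
    have e : M + 2 - 1 = M + 1 := rfl
    rw [e, sum_range_succ']
    have : ∀ k ∈ range M, nn m (k + 1) - 1 = m - 1 := fun k _ => by
      unfold nn
      rw [if_neg (by omega)]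
    rw [sum_congr rfl this]
    simp [nn]

end Pool.Agent.H62.HM
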