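import Pool.Agent.H62.HM.Real

/-!
# Balanced configurations: the moment identity
-/

set_option autoImplicit false

namespace Pool.Agent.H62.HM

open Finset

/-- The size of the necks at level `k` (between the ends `k` and `k + 1`). -/
noncomputable def size (n : ℕ → ℕ) (Q : ℕ → ℝ) (k : ℕ) : ℝ := (∑ j ∈ range (k + 1), Q j) / n k

/-- The force on the neck `i` of level `k`; the levels are `0, ..., N - 2`. -/
noncomputable def force (N : ℕ) (n : ℕ → ℕ) (Q : ℕ → ℝ) (p : (k : ℕ) → Fin (n k) → ℂ) (k : ℕ)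
    (i : Fin (n k)) : ℂ :=
  ∑ j ∈ univ.erase i, 2 * (size n Q k : ℂ) ^ 2 / (p k i - p k j) -
    ∑ l ∈ (range (N - 1)).filter (fun l => l + 1 = k ∨ l = k + 1), ∑ j : Fin (n l),
      (size n Q k : ℂ) * (size n Q l : ℂ) / (p k i - p l j)

/-- A balanced configuration with `N` ends of growths `Q 0, ..., Q (N - 1)`, `n k` necks at the
points `p k i` between the ends `k` and `k + 1`. -/
structure Balanced (N : ℕ) (n : ℕ → ℕ) (Q : ℕ → ℝ) (p : (k : ℕ) → Fin (n k) → ℂ) : Prop where
  pos : ∀ k, k + 1 < N → 1 ≤ n k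
  inj : ∀ k, k + 1 < N → Function.Injective (p k)
  adj : ∀ k, k + 2 < N → ∀ i j, p k i ≠ p (k + 1) j
  sum : ∑ j ∈ range N, Q j = 0
  zero : ∀ k, k + 1 < N → ∀ i, force N n Q p k i = 0

theorem sum_adj (m : ℕ) (g : ℕ → ℕ → ℂ) :
    ∑ k ∈ range (m + 1), ∑ l ∈ (range (m + 1)).filter (fun l => l + 1 = k ∨ l = k + 1), g k l =
      ∑ k ∈ range m, (g k (k + 1) + g (k + 1) k) := by
  have h1 : ∀ k ∈ range (m + 1), ∑ l ∈ (range (m + 1)).filter (fun l => l + 1 = k ∨ l = k + 1),
      g k l = ∑ l ∈ range (m + 1), ((if l + 1 = k then g k l else 0) +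
        if l = k + 1 then g k l else 0) := by
    intro k _
    rw [sum_filter]
    apply sum_congr rfl
    intro l _
    by_cases h : l + 1 = k
    · have h' : ¬ l = k + 1 := by omega
      simp [h, h']
    · by_cases h' : l = k + 1
      · have h'' : ¬ k + 1 + 1 = k := by omega
        simp [h', h'']
      · simp [h, h']
  rw [sum_congr rfl h1]
  simp only [sum_add_distrib]
  rw [sum_comm]
  have h2 : ∀ l ∈ range (m + 1), ∑ k ∈ range (m + 1), (if l + 1 = k then g k l else 0) =
      if l < m then g (l + 1) l else 0 := by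
    intro l _
    rw [sum_ite_eq]
    simp
  have h3 : ∀ k ∈ range (m + 1), ∑ l ∈ range (m + 1), (if l = k + 1 then g k l else 0) =
      if k < m then g k (k + 1) else 0 := by
    intro k _
    rw [sum_ite_eq']
    simp
  rw [sum_congr rfl h2, sum_congr rfl h3, sum_range_succ, sum_range_succ _ m]
  simp only [lt_irrefl, if_false, add_zero]
  rw [add_comm]
  congr 1 <;> (apply sum_congr rfl; intro k hk; rw [mem_range] at hk; simp [hk])

/-- pairs of one level -/
theorem intra {n : ℕ} {f : Fin n → ℂ} (hf : Function.Injective f) :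
    2 * ∑ i, ∑ j, f i / (f i - f j) = (n : ℂ) * (n - 1) := by
  have h1 : ∑ i, ∑ j, f i / (f i - f j) = ∑ i, ∑ j, f j / (f j - f i) := sum_comm
  have h2 : 2 * ∑ i, ∑ j, f i / (f i - f j) =
      ∑ i, ∑ j, (f i / (f i - f j) + f j / (f j - f i)) := by
    simp only [sum_add_distrib]
    rw [← h1]; ring
  rw [h2]
  have h3 : ∀ i, ∑ j, (f i / (f i - f j) + f j / (f j - f i)) = (n : ℂ) - 1 := by
    intro i
    have : ∀ j, f i / (f i - f j) + f j / (f j - f i) = if j = i then 0 else 1 := by
      intro j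
      by_cases h : j = i
      · simp [h]
      · have : f i - f j ≠ 0 := sub_ne_zero.2 fun e => h (hf e).symm
        have h' : f j - f i ≠ 0 := sub_ne_zero.2 fun e => h (hf e)
        rw [if_neg h]
        field_simp
        ring
    rw [sum_congr rfl fun j _ => this j]
    have : ∀ j, (if j = i then (0 : ℂ) else 1) = 1 - if j = i then 1 else 0 := by
      intro j; split_ifs <;> simp
    simp only [this]
    rw [sum_sub_distrib]
    simp
  simp [h3]
  ring

/-- pairs of adjacent levels -/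
theorem inter {n m : ℕ} {f : Fin n → ℂ} {g : Fin m → ℂ} (h : ∀ i j, f i ≠ g j) :
    ∑ i, ∑ j, f i / (f i - g j) + ∑ j, ∑ i, g j / (g j - f i) = (n : ℂ) * m := by
  rw [sum_comm (f := fun j i => g j / (g j - f i)), ← sum_add_distrib]
  have : ∀ i, (∑ j, f i / (f i - g j) + ∑ j, g j / (g j - f i)) = (m : ℂ) := by
    intro i
    rw [← sum_add_distrib]
    have : ∀ j, f i / (f i - g j) + g j / (g j - f i) = 1 := by
      intro j
      have h1 : f i - g j ≠ 0 := sub_ne_zero.2 (h i j)
      have h2 : g j - f i ≠ 0 := sub_ne_zero.2 (h i j).symm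
      field_simp
      ring
    simp [this]
  simp [this]

theorem size_mul {n : ℕ → ℕ} {Q : ℕ → ℝ} {k : ℕ} (h : 1 ≤ n k) :
    (n k : ℂ) * (size n Q k : ℂ) = (ds Q (k + 1) : ℂ) := by
  have : (n k : ℝ) ≠ 0 := by positivity
  have e : (n k : ℝ) * size n Q k = ds Q (k + 1) := by
    unfold size ds
    field_simp
  exact_mod_cast e

theorem moment {m : ℕ} {n : ℕ → ℕ} {Q : ℕ → ℝ} {p : (k : ℕ) → Fin (n k) → ℂ}
    (h : Balanced (m + 2) n Q p) :
    ∑ k ∈ range (m + 1), ds Q (k + 1) ^ 2 / n k =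
      ∑ k ∈ range (m + 1), ds Q (k + 1) ^ 2 - ∑ k ∈ range m, ds Q (k + 1) * ds Q (k + 2) := by
  have h0 : ∑ k ∈ range (m + 1), ∑ i, p k i * force (m + 2) n Q p k i = 0 := by
    apply sum_eq_zero
    intro k hk
    rw [mem_range] at hk
    apply sum_eq_zero
    intro i _
    rw [h.zero k (by omega) i, mul_zero]
  have e1 : ∀ k ∈ range (m + 1), ∑ i, p k i * force (m + 2) n Q p k i =
      (size n Q k : ℂ) ^ 2 * ((n k : ℂ) * (n k - 1)) -
      ∑ l ∈ (range (m + 1)).filter (fun l => l + 1 = k ∨ l = k + 1),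
        (size n Q k : ℂ) * (size n Q l : ℂ) * ∑ i, ∑ j, p k i / (p k i - p l j) := by
    intro k hk
    rw [mem_range] at hk
    rw [← intra (h.inj k (by omega))]
    unfold force
    simp only [mul_sub, sum_sub_distrib]
    congr 1
    · have e : ∀ x, p k x * ∑ j ∈ univ.erase x, 2 * (size n Q k : ℂ) ^ 2 / (p k x - p k j) =
          (size n Q k : ℂ) ^ 2 * 2 * ∑ j, p k x / (p k x - p k j) := by
        intro x
        rw [sum_erase _ (by simp), mul_sum, mul_sum]
        apply sum_congr rfl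
        intro j _
        ring
      rw [sum_congr rfl fun x _ => e x, ← mul_sum]
      ring
    · have e : m + 2 - 1 = m + 1 := rfl
      rw [e]
      simp only [mul_sum]
      rw [sum_comm]
      apply sum_congr rfl
      intro l _
      apply sum_congr rfl
      intro i _
      apply sum_congr rfl
      intro j _
      ring
  rw [sum_congr rfl e1, sum_sub_distrib, sum_adj] at h0
  have e2 : ∀ k ∈ range m, ((size n Q k : ℂ) * (size n Q (k + 1) : ℂ) *
        ∑ i, ∑ j, p k i / (p k i - p (k + 1) j) +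
      (size n Q (k + 1) : ℂ) * (size n Q k : ℂ) *
        ∑ i, ∑ j, p (k + 1) i / (p (k + 1) i - p k j)) =
      ((ds Q (k + 1) * ds Q (k + 2) : ℝ) : ℂ) := by
    intro k hk
    rw [mem_range] at hk
    have := inter (h.adj k (by omega))
    have s1 := size_mul (Q := Q) (h.pos k (by omega))
    have s2 := size_mul (Q := Q) (h.pos (k + 1) (by omega))
    push_cast
    rw [← s1, ← s2]
    linear_combination (size n Q k : ℂ) * (size n Q (k + 1) : ℂ) * this
  rw [sum_congr rfl e2] at h0
  have e3 : ∀ k ∈ range (m + 1), (size n Q k : ℂ) ^ 2 * ((n k : ℂ) * (n k - 1)) =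
      ((ds Q (k + 1) ^ 2 - ds Q (k + 1) ^ 2 / n k : ℝ) : ℂ) := by
    intro k hk
    rw [mem_range] at hk
    have hn := h.pos k (by omega)
    have s1 := size_mul (Q := Q) hn
    have hn0 : (n k : ℂ) ≠ 0 := by
      have : n k ≠ 0 := by omega
      exact_mod_cast this
    push_cast
    rw [← s1]
    field_simp
  rw [sum_congr rfl e3] at h0
  have h4 : ∑ k ∈ range (m + 1), (ds Q (k + 1) ^ 2 - ds Q (k + 1) ^ 2 / n k) -
      ∑ k ∈ range m, ds Q (k + 1) * ds Q (k + 2) = 0 := by
    exact_mod_cast h0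
  rw [sum_sub_distrib] at h4
  linarith

end Pool.Agent.H62.HM
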