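import Mathlib

/-!
# Concave partial sums
-/

set_option autoImplicit false

namespace Pool.Agent.H62.HM

open Finset

/-- partial sums -/
def ds (Q : ℕ → ℝ) (k : ℕ) : ℝ := ∑ j ∈ range k, Q j

theorem ds_zero (Q : ℕ → ℝ) : ds Q 0 = 0 := by simp [ds]

theorem ds_succ (Q : ℕ → ℝ) (k : ℕ) : ds Q (k + 1) = ds Q k + Q k := sum_range_succ _ _

theorem ds_add (Q : ℕ → ℝ) (a k : ℕ) : ds Q (a + k) = ds Q a + ∑ i ∈ range k, Q (a + i) :=
  sum_range_add _ _ _

theorem anti {Q : ℕ → ℝ} {M : ℕ} (hQ : ∀ j, j + 1 < M → Q (j + 1) ≤ Q j) {i j : ℕ} (hij : i ≤ j)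
    (hj : j < M) : Q j ≤ Q i := by
  induction j, hij using Nat.le_induction with
  | base => exact le_rfl
  | succ j hij ih => exact (hQ j hj).trans (ih (by omega))

theorem gap {Q : ℕ → ℝ} {M : ℕ} (hQ : ∀ j, j + 1 < M → Q (j + 1) ≤ Q j) {a b k : ℕ} (hab : a ≤ b)
    (hb : b + k ≤ M) : ds Q (b + k) - ds Q b ≤ ds Q (a + k) - ds Q a := by
  rw [ds_add, ds_add]
  have : ∑ i ∈ range k, Q (b + i) ≤ ∑ i ∈ range k, Q (a + i) := by
    apply sum_le_sum
    intro i hi
    rw [mem_range] at hi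
    exact anti hQ (by omega) (by omega)
  linarith

variable {Q : ℕ → ℝ} {m : ℕ}

theorem left (hQ : ∀ j, j + 1 < m + 2 → Q (j + 1) ≤ Q j) {j : ℕ} (hj : j ≤ m + 2) :
    ((j : ℝ) + 1) * ds Q j ≤ 2 * ∑ k ∈ range (j + 1), ds Q k := by
  have h1 : ∑ k ∈ range (j + 1), ds Q (j - k) = ∑ k ∈ range (j + 1), ds Q k := by
    rw [← sum_range_reflect (fun k => ds Q k) (j + 1)]
    apply sum_congr rfl
    intro k _
    congr 1
  have h2 : ∑ k ∈ range (j + 1), ds Q j ≤ ∑ k ∈ range (j + 1), (ds Q k + ds Q (j - k)) := by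
    apply sum_le_sum
    intro k hk
    rw [mem_range] at hk
    have := gap hQ (a := 0) (b := j - k) (k := k) (by omega) (by omega)
    rw [Nat.sub_add_cancel (by omega), zero_add, ds_zero] at this
    linarith
  rw [sum_add_distrib, h1, sum_const, card_range, nsmul_eq_mul] at h2
  push_cast at h2
  linarith

theorem right (hQ : ∀ j, j + 1 < m + 2 → Q (j + 1) ≤ Q j) (h0 : ds Q (m + 2) = 0) {j r : ℕ}
    (hj : j + r = m + 2) : ((r : ℝ) + 1) * ds Q j ≤ 2 * ∑ k ∈ range (r + 1), ds Q (j + k) := by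
  have h1 : ∑ k ∈ range (r + 1), ds Q (j + (r - k)) = ∑ k ∈ range (r + 1), ds Q (j + k) := by
    rw [← sum_range_reflect (fun k => ds Q (j + k)) (r + 1)]
    apply sum_congr rfl
    intro k _
    congr 1
  have h2 : ∑ k ∈ range (r + 1), ds Q j ≤
      ∑ k ∈ range (r + 1), (ds Q (j + k) + ds Q (j + (r - k))) := by
    apply sum_le_sum
    intro k hk
    rw [mem_range] at hk
    have := gap hQ (a := j) (b := j + (r - k)) (k := k) (by omega) (by omega)
    have e : j + (r - k) + k = m + 2 := by omega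
    rw [e, h0] at this
    linarith
  rw [sum_add_distrib, h1, sum_const, card_range, nsmul_eq_mul] at h2
  push_cast at h2
  linarith

theorem total (h0 : ds Q (m + 2) = 0) :
    ∑ k ∈ range (m + 3), ds Q k = ∑ k ∈ range (m + 1), ds Q (k + 1) := by
  rw [sum_range_succ, h0, add_zero, sum_range_succ', ds_zero, add_zero]

/-- the maximum of the partial sums -/
theorem le_total (hQ : ∀ j, j + 1 < m + 2 → Q (j + 1) ≤ Q j) (h0 : ds Q (m + 2) = 0) {j : ℕ}
    (hj : j ≤ m + 2) : ((m : ℝ) + 2) * ds Q j ≤ 2 * ∑ k ∈ range (m + 1), ds Q (k + 1) := by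
  obtain ⟨r, hr⟩ : ∃ r, j + r = m + 2 := ⟨m + 2 - j, by omega⟩
  have h1 := left hQ hj
  have h2 := right hQ h0 hr
  have h3 : ∑ k ∈ range (m + 3), ds Q k =
      ∑ k ∈ range j, ds Q k + ∑ k ∈ range (r + 1), ds Q (j + k) := by
    rw [← sum_range_add]
    congr 2
    omega
  rw [total h0] at h3
  rw [sum_range_succ] at h1
  have hrR : (j : ℝ) + r = m + 2 := by exact_mod_cast hr
  have e : ((m : ℝ) + 2) * ds Q j = ((j : ℝ) + 1) * ds Q j + ((r : ℝ) + 1) * ds Q j - 2 * ds Q j := by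
    rw [← hrR]; ring
  rw [e, h3]
  linarith

theorem ends_le (hQ : ∀ j, j + 1 < m + 2 → Q (j + 1) ≤ Q j) (h0 : ds Q (m + 2) = 0) :
    ((m : ℝ) + 1) * (Q 0 - Q (m + 1)) ≤ 2 * ∑ k ∈ range (m + 1), ds Q (k + 1) := by
  have h1 : ∑ k ∈ range (m + 1), ds Q (m + 1 - k) = ∑ k ∈ range (m + 1), ds Q (k + 1) := by
    rw [← sum_range_reflect (fun k => ds Q (k + 1)) (m + 1)]
    apply sum_congr rfl
    intro k hk
    rw [mem_range] at hk
    congr 1
    omega
  have e1 : ds Q 1 = Q 0 := by simp [ds]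
  have e2 : ds Q (m + 1) = - Q (m + 1) := by
    have := ds_succ Q (m + 1)
    rw [h0] at this
    linarith
  have h2 : ∑ k ∈ range (m + 1), (Q 0 - Q (m + 1)) ≤
      ∑ k ∈ range (m + 1), (ds Q (k + 1) + ds Q (m + 1 - k)) := by
    apply sum_le_sum
    intro k hk
    rw [mem_range] at hk
    have := gap hQ (a := 1) (b := m + 1 - k) (k := k) (by omega) (by omega)
    have e : m + 1 - k + k = m + 1 := by omega
    rw [e, e2, e1, add_comm 1 k] at this
    linarith
  rw [sum_add_distrib, h1, sum_const, card_range, nsmul_eq_mul] at h2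
  push_cast at h2
  linarith

theorem abel (Q : ℕ → ℝ) (n : ℕ) : ∑ k ∈ range (n + 1), Q k ^ 2 =
    Q n * ds Q (n + 1) + ∑ k ∈ range n, (Q k - Q (k + 1)) * ds Q (k + 1) := by
  induction n with
  | zero => simp [ds]; ring
  | succ n ih =>
    rw [sum_range_succ, ih, sum_range_succ, ds_succ Q (n + 1)]
    ring

theorem energy (h0 : ds Q (m + 2) = 0) : ∑ k ∈ range (m + 2), Q k ^ 2 =
    2 * ∑ k ∈ range (m + 1), ds Q (k + 1) ^ 2 -
      2 * ∑ k ∈ range m, ds Q (k + 1) * ds Q (k + 2) := by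
  have h1 : ∀ n, ∑ k ∈ range (n + 1), Q k ^ 2 + ds Q (n + 1) ^ 2 =
      2 * ∑ k ∈ range (n + 1), ds Q (k + 1) ^ 2 -
      2 * ∑ k ∈ range n, ds Q (k + 1) * ds Q (k + 2) := by
    intro n
    induction n with
    | zero => simp [ds]; ring
    | succ n ih =>
      have s1 := sum_range_succ (fun k => Q k ^ 2) (n + 1)
      have s2 := sum_range_succ (fun k => ds Q (k + 1) ^ 2) (n + 1)
      have s3 := sum_range_succ (fun k => ds Q (k + 1) * ds Q (k + 2)) n
      have s4 : ds Q (n + 1 + 1) = ds Q (n + 1) + Q (n + 1) := ds_succ Q (n + 1)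
      have s5 : ds Q (n + 2) = ds Q (n + 1) + Q (n + 1) := ds_succ Q (n + 1)
      rw [s5] at s3
      simp only [s4] at s2
      rw [s1, s2, s3, s4]
      linear_combination ih
  have h2 := h1 (m + 1)
  have s2 := sum_range_succ (fun k => ds Q (k + 1) ^ 2) (m + 1)
  have s3 := sum_range_succ (fun k => ds Q (k + 1) * ds Q (k + 2)) m
  have e1 : ds Q (m + 1 + 1) = 0 := h0
  simp only [e1] at s2
  rw [h0] at s3
  rw [e1, s2, s3] at h2
  linear_combination h2

/-- the quadratic inequality -/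
theorem quad (hQ : ∀ j, j + 1 < m + 2 → Q (j + 1) ≤ Q j) (h0 : ds Q (m + 2) = 0) :
    ((m : ℝ) + 1) * (m + 2) * ∑ k ∈ range (m + 2), Q k ^ 2 ≤
      4 * (∑ k ∈ range (m + 1), ds Q (k + 1)) ^ 2 := by
  set D := ∑ k ∈ range (m + 1), ds Q (k + 1) with hD
  have hm : (0 : ℝ) < (m : ℝ) + 2 := by positivity
  have h1 : ((m : ℝ) + 2) * ∑ k ∈ range (m + 2), Q k ^ 2 ≤ 2 * D * (Q 0 - Q (m + 1)) := by
    rw [abel Q (m + 1), h0, mul_zero, zero_add, mul_sum]
    have e : 2 * D * (Q 0 - Q (m + 1)) = ∑ k ∈ range (m + 1), 2 * D * (Q k - Q (k + 1)) := by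
      rw [← mul_sum, sum_range_sub' (fun k => Q k)]
    rw [e]
    apply sum_le_sum
    intro k hk
    rw [mem_range] at hk
    have h2 := le_total hQ h0 (j := k + 1) (by omega)
    have h3 := hQ k (by omega)
    rw [← hD] at h2
    have h4 : 0 ≤ (Q k - Q (k + 1)) * (2 * D - ((m : ℝ) + 2) * ds Q (k + 1)) :=
      mul_nonneg (by linarith) (by linarith)
    linarith
  have h5 := ends_le hQ h0
  rw [← hD] at h5
  have hD0 : 0 ≤ D := by
    have := le_total hQ h0 (j := 0) (by omega)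
    rw [ds_zero, mul_zero] at this
    linarith
  nlinarith [mul_nonneg (by linarith : (0 : ℝ) ≤ 2 * D) (by linarith : (0 : ℝ) ≤ 2 * D - ((m : ℝ) + 1) * (Q 0 - Q (m + 1))), mul_le_mul_of_nonneg_left h1 (by positivity : (0 : ℝ) ≤ (m : ℝ) + 1)]

end Pool.Agent.H62.HM
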