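import Pool.Agent.H62.HM.Bound

/-!
# Balanced configurations: the equality case
-/

set_option autoImplicit false

namespace Pool.Agent.H62.HM

open Finset

variable {m : ℕ} {n : ℕ → ℕ} {Q : ℕ → ℝ} {p : (k : ℕ) → Fin (n k) → ℂ}

/-- equality in the quadratic inequality -/
theorem quad_eq (hQ : ∀ j, j + 1 < m + 2 → Q (j + 1) ≤ Q j) (h0 : ds Q (m + 2) = 0)
    (hm : 1 ≤ m) (hD : 0 < ∑ k ∈ range (m + 1), ds Q (k + 1))
    (he : ((m : ℝ) + 1) * (m + 2) * ∑ k ∈ range (m + 2), Q k ^ 2 =
      4 * (∑ k ∈ range (m + 1), ds Q (k + 1)) ^ 2) :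
    (∀ j, 1 ≤ j → j < m + 2 → Q j = Q (m + 1)) ∨ (∀ j, j < m + 1 → Q j = Q 0) := by
  obtain ⟨D, hDd⟩ : ∃ D, D = ∑ k ∈ range (m + 1), ds Q (k + 1) := ⟨_, rfl⟩
  rw [← hDd] at hD he
  have hm0 : (0 : ℝ) < (m : ℝ) + 1 := by positivity
  have h5 := ends_le hQ h0
  rw [← hDd] at h5
  have hsum : ∑ k ∈ range (m + 1), (Q k - Q (k + 1)) * (2 * D - ((m : ℝ) + 2) * ds Q (k + 1)) =
      2 * D * (Q 0 - Q (m + 1)) - ((m : ℝ) + 2) * ∑ k ∈ range (m + 2), Q k ^ 2 := by
    rw [abel Q (m + 1), h0, mul_zero, zero_add, mul_sum, ← sum_range_sub' (fun k => Q k), mul_sum,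
      ← sum_sub_distrib]
    apply sum_congr rfl
    intro k _
    ring
  have hnn : ∀ k ∈ range (m + 1), 0 ≤ (Q k - Q (k + 1)) * (2 * D - ((m : ℝ) + 2) * ds Q (k + 1)) := by
    intro k hk
    rw [mem_range] at hk
    have h2 := le_total hQ h0 (j := k + 1) (by omega)
    have h3 := hQ k (by omega)
    rw [← hDd] at h2
    exact mul_nonneg (by linarith) (by linarith)
  have hs0 := sum_nonneg hnn
  rw [hsum] at hs0
  have key1 : 2 * D * (Q 0 - Q (m + 1)) = ((m : ℝ) + 2) * ∑ k ∈ range (m + 2), Q k ^ 2 := by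
    apply le_antisymm _ (by linarith)
    have h6 : (m + 1 : ℝ) * (2 * D * (Q 0 - Q (m + 1))) ≤
        (m + 1) * (((m : ℝ) + 2) * ∑ k ∈ range (m + 2), Q k ^ 2) := by
      have : 0 ≤ 2 * D * (2 * D - ((m : ℝ) + 1) * (Q 0 - Q (m + 1))) :=
        mul_nonneg (by linarith) (by linarith)
      nlinarith
    exact le_of_mul_le_mul_left h6 hm0
  have key2 : ((m : ℝ) + 1) * (Q 0 - Q (m + 1)) = 2 * D := by
    have h6 : 2 * D * (((m : ℝ) + 1) * (Q 0 - Q (m + 1))) = 2 * D * (2 * D) := by
      have : (m + 1 : ℝ) * (2 * D * (Q 0 - Q (m + 1))) =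
        (m + 1) * (((m : ℝ) + 2) * ∑ k ∈ range (m + 2), Q k ^ 2) := by rw [key1]
      nlinarith
    exact mul_left_cancel₀ (by positivity) h6
  have hterm : ∀ k ∈ range (m + 1),
      (Q k - Q (k + 1)) * (2 * D - ((m : ℝ) + 2) * ds Q (k + 1)) = 0 := by
    rw [← sum_eq_zero_iff_of_nonneg hnn, hsum]
    linarith
  have d1 : ds Q 1 = Q 0 := by simp [ds]
  have d2 : ds Q 2 = Q 0 + Q 1 := by simp [ds, sum_range_succ]
  have dl : ds Q (m + 1) = - Q (m + 1) := by
    have := ds_succ Q (m + 1)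
    rw [h0] at this
    linarith
  have dl2 : ds Q m = - Q m - Q (m + 1) := by
    have := ds_succ Q m
    rw [dl] at this
    linarith
  have hmR : (1 : ℝ) ≤ m := by exact_mod_cast hm
  have t0 := hterm 0 (mem_range.2 (by omega))
  have tm := hterm m (mem_range.2 (by omega))
  rw [zero_add, d1] at t0
  rw [dl] at tm
  rcases mul_eq_zero.1 t0 with t0 | t0
  · rcases mul_eq_zero.1 tm with tm | tm
    · exfalso
      have b1 := le_total hQ h0 (j := 2) (by omega)
      have b2 := le_total hQ h0 (j := m) (by omega)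
      rw [← hDd, d2] at b1
      rw [← hDd, dl2] at b2
      have hX : 0 < Q 0 - Q (m + 1) := by
        by_contra hc
        have := mul_nonneg hm0.le (by linarith : 0 ≤ -(Q 0 - Q (m + 1)))
        linarith
      have q1 : Q 1 = Q 0 := by linarith
      have qm : Q m = Q (m + 1) := by linarith
      rw [q1] at b1
      rw [qm] at b2
      linarith
    · right
      -- `-(m + 2) Q (m + 1) = 2 D`, all `Q j` equal to `Q 0`
      have hle : ∀ j ∈ range (m + 1), Q j ≤ Q 0 := fun j hj =>
        anti hQ (Nat.zero_le j) (by rw [mem_range] at hj; omega)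
      have hs : ∑ j ∈ range (m + 1), Q j = ∑ j ∈ range (m + 1), Q 0 := by
        have e1 : ∑ j ∈ range (m + 1), Q j = - Q (m + 1) := dl
        rw [e1, sum_const, card_range, nsmul_eq_mul]
        push_cast
        nlinarith
      intro j hj
      exact (sum_eq_sum_iff_of_le hle).1 hs j (mem_range.2 hj)
  · left
    have hge : ∀ j ∈ range m, Q (m + 1) ≤ Q (j + 1) := fun j hj =>
      anti hQ (by rw [mem_range] at hj; omega) (by omega)
    have hs : ∑ j ∈ range m, Q (m + 1) = ∑ j ∈ range m, Q (j + 1) := by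
      have e1 : ∑ j ∈ range (m + 1), Q j = - Q (m + 1) := dl
      rw [sum_range_succ'] at e1
      have e2 : ∑ j ∈ range m, Q (j + 1) = - Q (m + 1) - Q 0 := by linarith
      rw [e2, sum_const, card_range, nsmul_eq_mul]
      nlinarith
    have h7 := (sum_eq_sum_iff_of_le hge).1 hs
    intro j hj1 hj2
    rcases Nat.lt_or_ge j (m + 1) with h | h
    · have := h7 (j - 1) (mem_range.2 (by omega))
      rw [Nat.sub_add_cancel hj1] at this
      exact this.symm
    · have : j = m + 1 := by omega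
      rw [this]

/-- equality in the inequality of Cauchy and Schwarz -/
theorem size_eq (h : Balanced (m + 2) n Q p)
    (he : 2 * (∑ k ∈ range (m + 1), ds Q (k + 1)) ^ 2 =
      (∑ k ∈ range (m + 1), (n k : ℝ)) * ∑ k ∈ range (m + 2), Q k ^ 2) :
    ∀ k, k < m + 1 → (∑ k ∈ range (m + 1), (n k : ℝ)) * ds Q (k + 1) =
      (n k : ℝ) * ∑ k ∈ range (m + 1), ds Q (k + 1) := by
  obtain ⟨D, hD⟩ : ∃ D, D = ∑ k ∈ range (m + 1), ds Q (k + 1) := ⟨_, rfl⟩
  obtain ⟨S, hS⟩ : ∃ S, S = ∑ k ∈ range (m + 1), (n k : ℝ) := ⟨_, rfl⟩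
  have h1 := moment h
  have h2 := energy (Q := Q) (m := m) h.sum
  rw [← hD, ← hS] at he
  rw [← hD, ← hS]
  have h3 : ∑ k ∈ range (m + 1), (S * ds Q (k + 1) - n k * D) ^ 2 / n k = 0 := by
    have e : ∀ k ∈ range (m + 1), (S * ds Q (k + 1) - n k * D) ^ 2 / n k =
        S ^ 2 * (ds Q (k + 1) ^ 2 / n k) - 2 * S * D * ds Q (k + 1) + D ^ 2 * n k := by
      intro k hk
      rw [mem_range] at hk
      have : (n k : ℝ) ≠ 0 := by
        have := h.pos k (by omega)
        positivity
      field_simp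
      ring
    rw [sum_congr rfl e, sum_add_distrib, sum_sub_distrib, ← mul_sum, ← mul_sum, ← mul_sum, ← hD,
      ← hS]
    have e2 : ∑ k ∈ range (m + 1), ds Q (k + 1) ^ 2 / n k =
        (∑ k ∈ range (m + 2), Q k ^ 2) / 2 := by
      rw [h1, h2]; ring
    rw [e2]
    linear_combination (-S / 2) * he
  have hnn : ∀ k ∈ range (m + 1), 0 ≤ (S * ds Q (k + 1) - n k * D) ^ 2 / n k :=
    fun k _ => by positivity
  intro k hk
  have h4 := (sum_eq_zero_iff_of_nonneg hnn).1 h3 k (mem_range.2 hk)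
  have hn : (n k : ℝ) ≠ 0 := by
    have := h.pos k (by omega)
    positivity
  have h5 := (div_eq_zero_iff.1 h4).resolve_right hn
  have h6 := pow_eq_zero_iff (two_ne_zero) |>.1 h5
  linarith

theorem rigid (h : Balanced (m + 2) n Q p) (hQ : ∀ j, j + 1 < m + 2 → Q (j + 1) ≤ Q j)
    (hne : ∃ j, j < m + 2 ∧ Q j ≠ 0) (hm : 1 ≤ m)
    (he : 2 * ∑ k ∈ range (m + 1), n k = (m + 1) * (m + 2)) :
    ((∀ j, 1 ≤ j → j < m + 2 → Q j = Q (m + 1)) ∧ ∀ k, k < m + 1 → n k + k = m + 1) ∨
      ((∀ j, j < m + 1 → Q j = Q 0) ∧ ∀ k, k < m + 1 → n k = k + 1) := by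
  have h0 : ds Q (m + 2) = 0 := h.sum
  have hE := sq_pos' hne
  obtain ⟨E, hEd⟩ : ∃ E, E = ∑ k ∈ range (m + 2), Q k ^ 2 := ⟨_, rfl⟩
  obtain ⟨D, hDd⟩ : ∃ D, D = ∑ k ∈ range (m + 1), ds Q (k + 1) := ⟨_, rfl⟩
  obtain ⟨S, hSd⟩ : ∃ S, S = ∑ k ∈ range (m + 1), (n k : ℝ) := ⟨_, rfl⟩
  have hS : 2 * S = ((m : ℝ) + 1) * (m + 2) := by
    rw [hSd]
    exact_mod_cast he
  have c1 := cauchy h
  have c2 := quad hQ h0
  rw [← hEd, ← hDd, ← hSd] at c1
  rw [← hEd, ← hDd] at c2
  rw [← hEd] at hE
  have hD0 : 0 ≤ D := by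
    have := le_total hQ h0 (j := 0) (by omega)
    rw [ds_zero, mul_zero, ← hDd] at this
    linarith
  have hD : 0 < D := by
    rcases hD0.lt_or_eq with h | h
    · exact h
    · exfalso
      rw [← h] at c2
      have : 0 < ((m : ℝ) + 1) * (m + 2) * E := by positivity
      linarith
  have e1 : ((m : ℝ) + 1) * (m + 2) * E = 4 * D ^ 2 := by
    rw [← hS] at c2 ⊢
    linarith
  have e2 : 2 * D ^ 2 = S * E := by
    rw [← hS] at e1
    linarith
  have hse : ∀ k, k < m + 1 → S * ds Q (k + 1) = (n k : ℝ) * D := by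
    intro k hk
    have := size_eq h (by rw [← hEd, ← hDd, ← hSd]; exact e2) k hk
    rwa [← hSd, ← hDd] at this
  have hS0 : 0 < S := by
    have : 0 < ((m : ℝ) + 1) * (m + 2) := by positivity
    linarith
  rcases quad_eq hQ h0 hm (by rw [← hDd]; exact hD) (by rw [← hEd, ← hDd]; exact e1) with hq | hq
  · left
    refine ⟨hq, ?_⟩
    obtain ⟨c, hc⟩ : ∃ c, c = - Q (m + 1) := ⟨_, rfl⟩
    -- `ds Q (k + 1) = (m + 1 - k) c`
    have hd : ∀ k, k ≤ m → ds Q (m + 1 - k) = ((k : ℝ) + 1) * c := by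
      intro k hk
      induction k with
      | zero =>
        have := ds_succ Q (m + 1)
        rw [h0] at this
        rw [Nat.sub_zero, hc]
        push_cast
        linarith
      | succ k ih =>
        have h1 := ih (by omega)
        have h2 := ds_succ Q (m - k)
        have e : m + 1 - (k + 1) = m - k := by omega
        have e' : m - k + 1 = m + 1 - k := by omega
        rw [e', h1, hq (m - k) (by omega) (by omega)] at h2
        rw [e, hc] at *
        push_cast
        linarith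
    have hDc : D = S * c := by
      have h1 := hse m (by omega)
      have hsum : 2 * D = ((m : ℝ) + 1) * (m + 2) * c := by
        rw [hDd, ← sum_range_reflect]
        have : ∀ k ∈ range (m + 1), ds Q (m + 1 - 1 - k + 1) = ((k : ℝ) + 1) * c := by
          intro k hk
          rw [mem_range] at hk
          rw [← hd k (by omega)]
          congr 1
          omega
        rw [sum_congr rfl this, ← sum_mul]
        have : ∀ j : ℕ, 2 * ∑ k ∈ range j, ((k : ℝ) + 1) = j * (j + 1) := by
          intro j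
          induction j with
          | zero => simp
          | succ j ih => rw [sum_range_succ, mul_add, ih]; push_cast; ring
        have h3 := this (m + 1)
        push_cast at h3
        linear_combination c * h3
      rw [← hS] at hsum
      linarith
    intro k hk
    have h1 := hse k hk
    have h2 := hd (m - k) (by omega)
    have e : m + 1 - (m - k) = k + 1 := by omega
    rw [e, Nat.cast_sub (by omega)] at h2
    rw [h2, hDc] at h1
    have hc0 : c ≠ 0 := by
      rintro rfl
      rw [mul_zero] at hDc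
      linarith
    have h3 : (n k : ℝ) = (m : ℝ) - k + 1 := by
      have : S * c * ((m : ℝ) - k + 1) = S * c * (n k : ℝ) := by linarith
      exact (mul_left_cancel₀ (mul_ne_zero hS0.ne' hc0) this).symm
    have h4 : ((n k + k : ℕ) : ℝ) = ((m + 1 : ℕ) : ℝ) := by push_cast; linarith
    exact_mod_cast h4
  · right
    refine ⟨hq, ?_⟩
    have hd : ∀ k, k ≤ m + 1 → ds Q k = (k : ℝ) * Q 0 := by
      intro k hk
      induction k with
      | zero => simp [ds]
      | succ k ih =>
        rw [ds_succ, ih (by omega), hq k (by omega)]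
        push_cast
        ring
    have hDc : D = S * Q 0 := by
      have hsum : 2 * D = ((m : ℝ) + 1) * (m + 2) * Q 0 := by
        rw [hDd]
        have : ∀ k ∈ range (m + 1), ds Q (k + 1) = ((k : ℝ) + 1) * Q 0 := by
          intro k hk
          rw [mem_range] at hk
          rw [hd (k + 1) (by omega)]
          push_cast
          ring
        rw [sum_congr rfl this, ← sum_mul]
        have : ∀ j : ℕ, 2 * ∑ k ∈ range j, ((k : ℝ) + 1) = j * (j + 1) := by
          intro j
          induction j with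
          | zero => simp
          | succ j ih => rw [sum_range_succ, mul_add, ih]; push_cast; ring
        have h3 := this (m + 1)
        push_cast at h3
        linear_combination Q 0 * h3
      rw [← hS] at hsum
      linarith
    intro k hk
    have h1 := hse k hk
    rw [hd (k + 1) (by omega), hDc] at h1
    have hc0 : Q 0 ≠ 0 := by
      intro h
      rw [h, mul_zero] at hDc
      linarith
    push_cast at h1
    have h3 : (n k : ℝ) = (k : ℝ) + 1 := by
      have : S * Q 0 * ((k : ℝ) + 1) = S * Q 0 * (n k : ℝ) := by linarith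
      exact (mul_left_cancel₀ (mul_ne_zero hS0.ne' hc0) this).symm
    exact_mod_cast h3

end Pool.Agent.H62.HM
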