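import Pool.Agent.H62.HM.Rigid
import Pool.Agent.H22.NB.Conv

/-!
# Balanced configurations: the configurations of the equality case

Polynomial part: a chain of finite sets with equal charges is the chain of the zero sets of the
successive derivatives of a polynomial.
-/

set_option autoImplicit false

namespace Pool.Agent.H62.HM

open Finset Polynomial

/-- the forces of a chain `R 0, ..., R m` with equal charges vanish -/
def Forces (m : ℕ) (R : ℕ → Finset ℂ) : Prop :=
  ∀ k ≤ m, ∀ z ∈ R k, 2 * ∑ w ∈ (R k).erase z, 1 / (z - w) =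
    (if 1 ≤ k then ∑ v ∈ R (k - 1), 1 / (z - v) else 0) +
      if k + 1 ≤ m then ∑ v ∈ R (k + 1), 1 / (z - v) else 0

/-- the monic polynomial with simple zeros in `s` -/
noncomputable def poly (s : Finset ℂ) : ℂ[X] := ∏ a ∈ s, (X - C a)

theorem poly_sep (s : Finset ℂ) : (poly s).Separable := by
  unfold poly
  exact separable_prod_X_sub_C_iff'.2 fun _ _ _ _ h => h

theorem poly_roots (s : Finset ℂ) : (poly s).roots.toFinset = s := by
  unfold poly
  rw [roots_prod_X_sub_C]
  exact Finset.val_toFinset s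

theorem poly_eval (s : Finset ℂ) (z : ℂ) : (poly s).eval z = 0 ↔ z ∈ s := by
  rw [← poly_roots s, Multiset.mem_toFinset, mem_roots (poly_sep s).ne_zero]
  rw [poly_roots s]
  rfl

theorem poly_monic (s : Finset ℂ) : (poly s).Monic := monic_prod_X_sub_C _ _

theorem poly_deg (s : Finset ℂ) : (poly s).natDegree = s.card := by
  unfold poly
  exact natDegree_finsetProd_X_sub_C_eq_card s fun a => a

theorem sum_poly {s : Finset ℂ} {z : ℂ} (hz : z ∉ s) :
    ∑ w ∈ s, 1 / (z - w) = (derivative (poly s)).eval z / (poly s).eval z := by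
  have h := Pool.Agent.H22.NB.sum_roots (poly_sep s) (z := z) (fun h => hz ((poly_eval s z).1 h))
  rw [poly_roots] at h
  exact h

theorem sum_poly' {s : Finset ℂ} {z : ℂ} (hz : z ∈ s) :
    2 * ∑ w ∈ s.erase z, 1 / (z - w) =
      (derivative (derivative (poly s))).eval z / (derivative (poly s)).eval z := by
  have h := Pool.Agent.H22.NB.sum_other (poly_sep s) ((poly_eval s z).2 hz)
  rw [poly_roots] at h
  exact h

/-- if the forces of `s` on `t` vanish and `s` has one point more than `t`, then `t` is the zero set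
of the derivative -/
theorem step {s t : Finset ℂ} (hc : s.card = t.card + 1) (hd : Disjoint s t)
    (h : ∀ z ∈ t, ∑ v ∈ s, 1 / (z - v) = 0) :
    derivative (poly s) = C ((s.card : ℕ) : ℂ) * poly t := by
  have hs0 : ((s.card : ℕ) : ℂ) ≠ 0 := by
    rw [hc]; exact_mod_cast Nat.succ_ne_zero t.card
  have hnd : (derivative (poly s)).natDegree = t.card := by
    rw [natDegree_derivative, poly_deg, hc]; rfl
  have hlc : (derivative (poly s)).leadingCoeff = ((s.card : ℕ) : ℂ) := by
    rw [leadingCoeff_derivative, (poly_monic s).leadingCoeff, poly_deg, one_mul]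
  have hne : derivative (poly s) ≠ 0 := by
    intro h0
    rw [h0, leadingCoeff_zero] at hlc
    exact hs0 hlc.symm
  have hde : (derivative (poly s)).degree = t.card := by
    rw [degree_eq_natDegree hne, hnd]
  have hgn : (C ((s.card : ℕ) : ℂ) * poly t).degree = t.card := by
    rw [degree_C_mul hs0, degree_eq_natDegree (poly_monic t).ne_zero, poly_deg]
  refine eq_of_degree_sub_lt_of_eval_finset_eq t ?_ ?_
  · rw [← hde]
    refine degree_sub_lt_left (by rw [hde, hgn]) hne ?_
    rw [hlc, leadingCoeff_mul, leadingCoeff_C, (poly_monic t).leadingCoeff, mul_one]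
  · intro z hz
    have hzs : z ∉ s := fun h' => Finset.disjoint_left.1 hd h' hz
    have h1 := h z hz
    rw [sum_poly hzs] at h1
    have h2 : (poly s).eval z ≠ 0 := fun h' => hzs ((poly_eval s z).1 h')
    rw [(div_eq_zero_iff.1 h1).resolve_right h2, eval_mul, (poly_eval t z).2 hz, mul_zero]

theorem chain_step (m : ℕ) (R : ℕ → Finset ℂ) (hc : ∀ k ≤ m, (R k).card = m + 1 - k)
    (hd : ∀ k, k + 1 ≤ m → Disjoint (R k) (R (k + 1))) (hF : Forces m R) (j : ℕ) :
    ∀ k, k + 1 + j = m → derivative (poly (R k)) = C (((R k).card : ℕ) : ℂ) * poly (R (k + 1)) := by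
  induction j with
  | zero =>
    intro k hk
    refine step (by rw [hc k (by omega), hc (k + 1) (by omega)]; omega) (hd k (by omega)) ?_
    intro z hz
    have h1 := hF (k + 1) (by omega) z hz
    rw [if_pos (by omega), if_neg (by omega), add_zero, Nat.add_sub_cancel] at h1
    have h2 : (R (k + 1)).card = 1 := by rw [hc (k + 1) (by omega)]; omega
    have h3 : (R (k + 1)).erase z = ∅ := by
      rw [← card_eq_zero, card_erase_of_mem hz, h2]
    rw [h3, sum_empty, mul_zero] at h1
    exact h1.symm
  | succ j ih =>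
    intro k hk
    refine step (by rw [hc k (by omega), hc (k + 1) (by omega)]; omega) (hd k (by omega)) ?_
    intro z hz
    have h1 := hF (k + 1) (by omega) z hz
    rw [if_pos (by omega), if_pos (by omega), Nat.add_sub_cancel] at h1
    have h2 := ih (k + 1) (by omega)
    have hz2 : z ∉ R (k + 1 + 1) := fun h' =>
      Finset.disjoint_left.1 (hd (k + 1) (by omega)) hz h'
    rw [sum_poly' hz, sum_poly hz2, h2, derivative_C_mul, eval_mul, eval_mul, eval_C] at h1
    have h3 : (((R (k + 1)).card : ℕ) : ℂ) ≠ 0 := by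
      have : (R (k + 1)).card ≠ 0 := by rw [hc (k + 1) (by omega)]; omega
      exact_mod_cast this
    rw [mul_div_mul_left _ _ h3] at h1
    linear_combination -h1

/-- the chain consists of the zero sets of the successive derivatives of a polynomial -/
theorem chain (m : ℕ) (R : ℕ → Finset ℂ) (hc : ∀ k ≤ m, (R k).card = m + 1 - k)
    (hd : ∀ k, k + 1 ≤ m → Disjoint (R k) (R (k + 1))) (hF : Forces m R) :
    ∃ P : ℂ[X], P.natDegree = m + 1 ∧
      ∀ k ≤ m, ∀ z, (derivative^[k] P).eval z = 0 ↔ z ∈ R k := by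
  refine ⟨poly (R 0), by rw [poly_deg, hc 0 (Nat.zero_le _)]; rfl, ?_⟩
  have h : ∀ k ≤ m, ∃ a : ℂ, a ≠ 0 ∧ derivative^[k] (poly (R 0)) = C a * poly (R k) := by
    intro k
    induction k with
    | zero => intro _; exact ⟨1, one_ne_zero, by simp⟩
    | succ k ih =>
      intro hk
      obtain ⟨a, ha, h1⟩ := ih (by omega)
      have h2 := chain_step m R hc hd hF (m - (k + 1)) k (by omega)
      refine ⟨a * (((R k).card : ℕ) : ℂ), mul_ne_zero ha ?_, ?_⟩
      · have : (R k).card ≠ 0 := by rw [hc k (by omega)]; omega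
        exact_mod_cast this
      · rw [Function.iterate_succ_apply', h1, derivative_C_mul, h2, ← mul_assoc, ← C_mul]
  intro k hk z
  obtain ⟨a, ha, h1⟩ := h k hk
  rw [h1, eval_mul, eval_C, mul_eq_zero, poly_eval]
  exact ⟨fun h => h.resolve_left ha, Or.inr⟩

/-- conversely the zero sets of the successive derivatives satisfy the force equations, if all zeros
are simple -/
theorem chain_conv (m : ℕ) (R : ℕ → Finset ℂ) (hc : ∀ k ≤ m, (R k).card = m + 1 - k) (P : ℂ[X])
    (hP : P.natDegree = m + 1)
    (hR : ∀ k ≤ m, ∀ z, (derivative^[k] P).eval z = 0 ↔ z ∈ R k) :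
    (∀ k, k + 1 ≤ m → Disjoint (R k) (R (k + 1))) ∧ Forces m R := by
  have hdeg : ∀ k, (derivative^[k] P).natDegree = m + 1 - k := by
    intro k
    induction k with
    | zero => simpa using hP
    | succ k ih => rw [Function.iterate_succ_apply', natDegree_derivative, ih]; omega
  have hne : ∀ k ≤ m, derivative^[k] P ≠ 0 := by
    intro k hk h0
    have := hdeg k
    rw [h0, natDegree_zero] at this
    omega
  have hroots : ∀ k ≤ m, (derivative^[k] P).roots.toFinset = R k := by
    intro k hk
    ext z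
    rw [Multiset.mem_toFinset, mem_roots (hne k hk), ← hR k hk z]
    rfl
  have hsep : ∀ k ≤ m, (derivative^[k] P).Separable := by
    intro k hk
    rw [← nodup_roots_iff_of_splits (hne k hk) (IsAlgClosed.splits _),
      ← Multiset.toFinset_card_eq_card_iff_nodup, hroots k hk,
      ← (IsAlgClosed.splits (derivative^[k] P)).natDegree_eq_card_roots, hdeg, hc k hk]
  have hnc : ∀ k ≤ m, ∀ z ∈ R k, (derivative^[k + 1] P).eval z ≠ 0 := by
    intro k hk z hz h0
    obtain ⟨a, b, hab⟩ : IsCoprime (derivative^[k] P) (derivative (derivative^[k] P)) := hsep k hk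
    rw [← Function.iterate_succ_apply' (f := ⇑derivative)] at hab
    have := congrArg (fun f => f.eval z) hab
    simp only [eval_add, eval_mul, (hR k hk z).2 hz, h0, mul_zero, add_zero, eval_one] at this
    exact zero_ne_one this
  refine ⟨?_, ?_⟩
  · intro k hk
    rw [Finset.disjoint_left]
    intro z hz hz'
    exact hnc k (by omega) z hz ((hR (k + 1) hk z).2 hz')
  · intro k hk z hz
    have e1 : (if 1 ≤ k then ∑ v ∈ R (k - 1), 1 / (z - v) else 0) = 0 := by
      split_ifs with h
      · obtain ⟨j, rfl⟩ : ∃ j, k = j + 1 := ⟨k - 1, by omega⟩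
        rw [Nat.add_sub_cancel]
        have hzj : (derivative^[j] P).eval z ≠ 0 := fun h' =>
          hnc j (by omega) z ((hR j (by omega) z).1 h') ((hR (j + 1) hk z).2 hz)
        have h2 := Pool.Agent.H22.NB.sum_roots (hsep j (by omega)) hzj
        rw [hroots j (by omega)] at h2
        rw [h2, ← Function.iterate_succ_apply' (f := ⇑derivative), (hR (j + 1) hk z).2 hz, zero_div]
      · rfl
    rw [e1, zero_add]
    have h3 := Pool.Agent.H22.NB.sum_other (hsep k hk) ((hR k hk z).2 hz)
    rw [hroots k hk, ← Function.iterate_succ_apply' (f := ⇑derivative),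
      ← Function.iterate_succ_apply' (f := ⇑derivative)] at h3
    rw [h3]
    split_ifs with h
    · have h4 := Pool.Agent.H22.NB.sum_roots (hsep (k + 1) h) (hnc k hk z hz)
      rw [hroots (k + 1) h, ← Function.iterate_succ_apply' (f := ⇑derivative)] at h4
      exact h4.symm
    · obtain rfl : k = m := by omega
      have h5 : derivative^[k + 1 + 1] P = 0 := by
        rw [Function.iterate_succ_apply']
        apply derivative_of_natDegree_zero
        rw [hdeg]
        omega
      rw [h5, eval_zero, zero_div]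

theorem forces_reverse {m : ℕ} {R : ℕ → Finset ℂ} :
    Forces m (fun k => R (m - k)) ↔ Forces m R := by
  have key : ∀ S : ℕ → Finset ℂ, Forces m S → Forces m (fun k => S (m - k)) := by
    intro S hS k hk z hz
    have h := hS (m - k) (by omega) z hz
    show 2 * ∑ w ∈ (S (m - k)).erase z, 1 / (z - w) =
      (if 1 ≤ k then ∑ v ∈ S (m - (k - 1)), 1 / (z - v) else 0) +
      if k + 1 ≤ m then ∑ v ∈ S (m - (k + 1)), 1 / (z - v) else 0
    rw [h, add_comm]
    congr 1
    · by_cases h1 : 1 ≤ k
      · rw [if_pos h1, if_pos (by omega)]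
        have : m - k + 1 = m - (k - 1) := by omega
        rw [this]
      · rw [if_neg h1, if_neg (by omega)]
    · by_cases h1 : k + 1 ≤ m
      · rw [if_pos h1, if_pos (by omega)]
        have : m - k - 1 = m - (k + 1) := by omega
        rw [this]
      · rw [if_neg h1, if_neg (by omega)]
  refine ⟨fun h => ?_, key R⟩
  have h1 := key _ h
  intro k hk z hz
  have e : ∀ j ≤ m, m - (m - j) = j := fun j hj => by omega
  have h2 := h1 k hk z (by show z ∈ R (m - (m - k)); rw [e k hk]; exact hz)
  simp only [e k hk] at h2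
  rw [h2]
  congr 1
  · by_cases h3 : 1 ≤ k
    · rw [if_pos h3, if_pos h3, e (k - 1) (by omega)]
    · rw [if_neg h3, if_neg h3]
  · by_cases h3 : k + 1 ≤ m
    · rw [if_pos h3, if_pos h3, e (k + 1) h3]
    · rw [if_neg h3, if_neg h3]

section

open Finset Polynomial

variable {m : ℕ} {n : ℕ → ℕ} {Q : ℕ → ℝ} {p : (k : ℕ) → Fin (n k) → ℂ}

/-- the points of level `k` -/
noncomputable def pts (p : (k : ℕ) → Fin (n k) → ℂ) (k : ℕ) : Finset ℂ := univ.image (p k)

theorem mem_pts (k : ℕ) (z : ℂ) : z ∈ pts p k ↔ ∃ i, p k i = z := by simp [pts]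

theorem filter_sum (m k : ℕ) (g : ℕ → ℂ) (hk : k ≤ m) :
    ∑ l ∈ (range (m + 1)).filter (fun l => l + 1 = k ∨ l = k + 1), g l =
      (if 1 ≤ k then g (k - 1) else 0) + if k + 1 ≤ m then g (k + 1) else 0 := by
  have h1 : ∀ l ∈ range (m + 1), (if l + 1 = k ∨ l = k + 1 then g l else 0) =
      (if l + 1 = k then g l else 0) + if l = k + 1 then g l else 0 := by
    intro l _
    by_cases h : l + 1 = k
    · have h' : ¬ l = k + 1 := by omega
      simp [h, h']
    · by_cases h' : l = k + 1
      · have h'' : ¬ k + 1 + 1 = k := by omega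
        simp [h', h'']
      · simp [h, h']
  rw [sum_filter, sum_congr rfl h1, sum_add_distrib]
  congr 1
  · by_cases h : 1 ≤ k
    · obtain ⟨j, rfl⟩ : ∃ j, k = j + 1 := ⟨k - 1, by omega⟩
      rw [if_pos h, Nat.add_sub_cancel]
      have : ∀ l ∈ range (m + 1), (if l + 1 = j + 1 then g l else 0) = if l = j then g l else 0 := by
        intro l _
        by_cases h2 : l = j
        · simp [h2]
        · simp [h2]
      rw [sum_congr rfl this, sum_ite_eq', if_pos (mem_range.2 (by omega))]
    · rw [if_neg h]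
      apply sum_eq_zero
      intro l _
      rw [if_neg (by omega)]
  · rw [sum_ite_eq']
    by_cases h : k + 1 ≤ m
    · rw [if_pos h, if_pos (mem_range.2 (by omega))]
    · rw [if_neg h, if_neg (by rw [mem_range]; omega)]

theorem force_eq {c : ℝ} (hs : ∀ k, k < m + 1 → size n Q k = c)
    (hinj : ∀ k, k < m + 1 → Function.Injective (p k)) (k : ℕ) (hk : k ≤ m) (i : Fin (n k)) :
    force (m + 2) n Q p k i = (c : ℂ) ^ 2 * (2 * ∑ w ∈ (pts p k).erase (p k i), 1 / (p k i - w) -
      ((if 1 ≤ k then ∑ v ∈ pts p (k - 1), 1 / (p k i - v) else 0) +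
        if k + 1 ≤ m then ∑ v ∈ pts p (k + 1), 1 / (p k i - v) else 0)) := by
  have hT : ∀ l, l < m + 1 → ∑ j : Fin (n l), (size n Q k : ℂ) * (size n Q l : ℂ) / (p k i - p l j) =
      (c : ℂ) ^ 2 * ∑ v ∈ pts p l, 1 / (p k i - v) := by
    intro l hl
    rw [pts, sum_image fun a _ b _ h => hinj l hl h, mul_sum, hs k (by omega), hs l hl]
    refine sum_congr rfl fun j _ => ?_
    ring
  have hA : ∑ j ∈ univ.erase i, 2 * (size n Q k : ℂ) ^ 2 / (p k i - p k j) =
      (c : ℂ) ^ 2 * (2 * ∑ w ∈ (pts p k).erase (p k i), 1 / (p k i - w)) := by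
    rw [pts, ← image_erase (hinj k (by omega)), sum_image fun a _ b _ h => hinj k (by omega) h,
      mul_sum, mul_sum, hs k (by omega)]
    refine sum_congr rfl fun j _ => ?_
    ring
  have e : m + 2 - 1 = m + 1 := rfl
  unfold force
  rw [hA, e, mul_sub]
  congr 1
  rw [sum_congr rfl fun l hl => hT l (mem_range.1 (mem_filter.1 hl).1), ← mul_sum,
    filter_sum m k _ hk]

theorem forces_iff {c : ℝ} (hc : c ≠ 0) (hs : ∀ k, k < m + 1 → size n Q k = c)
    (hinj : ∀ k, k < m + 1 → Function.Injective (p k)) :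
    Forces m (pts p) ↔ ∀ k, k + 1 < m + 2 → ∀ i, force (m + 2) n Q p k i = 0 := by
  have hcc : ((c : ℂ) ^ 2) ≠ 0 := by
    have : (c : ℂ) ≠ 0 := by exact_mod_cast hc
    positivity
  constructor
  · intro h k hk i
    rw [force_eq hs hinj k (by omega), h k (by omega) (p k i) ((mem_pts k _).2 ⟨i, rfl⟩), sub_self,
      mul_zero]
  · intro h k hk z hz
    obtain ⟨i, rfl⟩ := (mem_pts k z).1 hz
    have h1 := h k (by omega) i
    rw [force_eq hs hinj k hk] at h1
    exact sub_eq_zero.1 ((mul_eq_zero.1 h1).resolve_left hcc)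

theorem sizeA (h0 : ds Q (m + 2) = 0) (hq : ∀ j, 1 ≤ j → j < m + 2 → Q j = Q (m + 1))
    (hn : ∀ k, k < m + 1 → n k + k = m + 1) :
    (∀ k, k < m + 1 → size n Q k = - Q (m + 1)) ∧ Q 0 = - ((m : ℝ) + 1) * Q (m + 1) := by
  have hd : ∀ k, k ≤ m + 1 → ds Q (k + 1) = Q 0 + k * Q (m + 1) := by
    intro k hk
    induction k with
    | zero => simp [ds]
    | succ k ih =>
      rw [ds_succ, ih (by omega), hq (k + 1) (by omega) (by omega)]
      push_cast
      ring
  have h1 := hd (m + 1) le_rfl
  rw [h0] at h1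
  push_cast at h1
  refine ⟨?_, by linarith⟩
  intro k hk
  have h2 := hd k (by omega)
  have h3 : (n k : ℝ) + k = m + 1 := by exact_mod_cast hn k hk
  have h4 : (n k : ℝ) ≠ 0 := by
    have : n k ≠ 0 := by have := hn k hk; omega
    exact_mod_cast this
  show (∑ j ∈ range (k + 1), Q j) / n k = _
  rw [div_eq_iff h4]
  have h5 : ∑ j ∈ range (k + 1), Q j = Q 0 + k * Q (m + 1) := h2
  rw [h5]
  linear_combination Q (m + 1) * h3 - h1

theorem sizeB (hq : ∀ j, j < m + 1 → Q j = Q 0) (hn : ∀ k, k < m + 1 → n k = k + 1) :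
    ∀ k, k < m + 1 → size n Q k = Q 0 := by
  intro k hk
  have hd : ∀ k, k ≤ m → ∑ j ∈ range (k + 1), Q j = ((k : ℝ) + 1) * Q 0 := by
    intro k hk
    induction k with
    | zero => simp
    | succ k ih =>
      rw [sum_range_succ, ih (by omega), hq (k + 1) (by omega)]
      push_cast
      ring
  unfold size
  rw [hd k (by omega), hn k hk]
  have : ((k : ℝ) + 1) ≠ 0 := by positivity
  push_cast
  field_simp

/-- the configurations of the equality case are the chains of zeros of successive derivatives -/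
theorem classify {N : ℕ} (hN : 3 ≤ N) (hinj : ∀ k, k + 1 < N → Function.Injective (p k))
    (hsum : ∑ j ∈ range N, Q j = 0) (hQ : ∀ j, j + 1 < N → Q (j + 1) ≤ Q j)
    (hne : ∃ j, j < N ∧ Q j ≠ 0) :
    (Balanced N n Q p ∧ 2 * genus N n = (N - 1) * (N - 2)) ↔
      ∃ P : ℂ[X], P.natDegree = N - 1 ∧
        (((∀ j, 1 ≤ j → j < N → Q j = Q (N - 1)) ∧ ∀ k, k + 1 < N → n k + k + 1 = N ∧
            ∀ z, (derivative^[k] P).eval z = 0 ↔ ∃ i, p k i = z) ∨
          ((∀ j, j + 1 < N → Q j = Q 0) ∧ ∀ k, k + 1 < N → n k = k + 1 ∧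
            ∀ z, (derivative^[N - 2 - k] P).eval z = 0 ↔ ∃ i, p k i = z)) := by
  obtain ⟨m, rfl⟩ : ∃ m, N = m + 2 := ⟨N - 2, by omega⟩
  have e1 : m + 2 - 1 = m + 1 := rfl
  have e2 : m + 2 - 2 = m := rfl
  rw [e1, e2]
  have h0 : ds Q (m + 2) = 0 := hsum
  have hinj' : ∀ k, k < m + 1 → Function.Injective (p k) := fun k hk => hinj k (by omega)
  have hcard : ∀ k, k ≤ m → (pts p k).card = n k := by
    intro k hk
    rw [pts, card_image_of_injective _ (hinj' k (by omega)), card_univ, Fintype.card_fin]
  have cA : (∀ j, 1 ≤ j → j < m + 2 → Q j = Q (m + 1)) →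
      Q 0 = - ((m : ℝ) + 1) * Q (m + 1) → - Q (m + 1) ≠ 0 := by
    intro hq hq0 hz
    have hz' : Q (m + 1) = 0 := by linarith
    obtain ⟨j, hj, hj0⟩ := hne
    rcases Nat.eq_zero_or_pos j with rfl | hj1
    · rw [hz', mul_zero] at hq0
      exact hj0 hq0
    · exact hj0 (by rw [hq j hj1 hj, hz'])
  have cB : (∀ j, j < m + 1 → Q j = Q 0) → Q 0 ≠ 0 := by
    intro hq hz
    obtain ⟨j, hj, hj0⟩ := hne
    rcases Nat.lt_or_ge j (m + 1) with h | h
    · exact hj0 (by rw [hq j h, hz])
    · obtain rfl : j = m + 1 := by omega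
      rw [sum_range_succ, sum_congr rfl fun j hj => by rw [hq j (mem_range.1 hj), hz], sum_const,
        smul_zero, zero_add] at hsum
      exact hj0 hsum
  constructor
  · rintro ⟨h, he⟩
    have h1 : 2 * ∑ k ∈ range (m + 1), n k = (m + 1) * (m + 2) := by
      rw [genus_add h]
      nlinarith
    have hdis : ∀ k, k + 1 ≤ m → Disjoint (pts p k) (pts p (k + 1)) := by
      intro k hk
      rw [Finset.disjoint_left]
      intro z hz hz'
      obtain ⟨i, hi⟩ := (mem_pts k z).1 hz
      obtain ⟨j, hj⟩ := (mem_pts (k + 1) z).1 hz'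
      exact h.adj k (by omega) i j (hi.trans hj.symm)
    rcases rigid h hQ hne (by omega) h1 with ⟨hq, hn⟩ | ⟨hq, hn⟩
    · obtain ⟨hs, hq0⟩ := sizeA h0 hq hn
      have hF : Forces m (pts p) := (forces_iff (cA hq hq0) hs hinj').2 h.zero
      obtain ⟨P, hP, hR⟩ := chain m (pts p)
        (fun k hk => by rw [hcard k hk]; have := hn k (by omega); omega) hdis hF
      refine ⟨P, hP, Or.inl ⟨hq, fun k hk => ⟨by have := hn k (by omega); omega, fun z => ?_⟩⟩⟩
      rw [hR k (by omega) z, mem_pts]
    · have hs := sizeB hq hn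
      have hF : Forces m (fun k => pts p (m - k)) :=
        forces_reverse.2 ((forces_iff (cB hq) hs hinj').2 h.zero)
      obtain ⟨P, hP, hR⟩ := chain m (fun k => pts p (m - k))
        (fun k hk => by rw [hcard (m - k) (by omega), hn (m - k) (by omega)]; omega)
        (fun k hk => by
          have h3 := hdis (m - (k + 1)) (by omega)
          have h4 : m - (k + 1) + 1 = m - k := by omega
          rw [h4] at h3
          exact h3.symm) hF
      refine ⟨P, hP, Or.inr ⟨fun j hj => hq j (by omega), fun k hk =>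
        ⟨hn k (by omega), fun z => ?_⟩⟩⟩
      rw [hR (m - k) (by omega) z]
      have h4 : m - (m - k) = k := by omega
      simp only [h4]
      exact mem_pts k z
  · rintro ⟨P, hP, ⟨hq, hk⟩ | ⟨hq, hk⟩⟩
    · have hn : ∀ k, k < m + 1 → n k + k = m + 1 := fun k hk' => by
        have := (hk k (by omega)).1
        omega
      obtain ⟨hs, hq0⟩ := sizeA h0 hq hn
      obtain ⟨hdis, hF⟩ := chain_conv m (pts p)
        (fun k hk => by rw [hcard k hk]; have := hn k (by omega); omega) P hP
        (fun k hk' z => by rw [(hk k (by omega)).2 z, mem_pts])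
      refine ⟨⟨?_, hinj, ?_, hsum, (forces_iff (cA hq hq0) hs hinj').1 hF⟩, ?_⟩
      · intro k hk'
        have := hn k (by omega)
        omega
      · intro k hk' i j hij
        exact Finset.disjoint_left.1 (hdis k (by omega)) ((mem_pts k _).2 ⟨i, rfl⟩)
          ((mem_pts (k + 1) _).2 ⟨j, hij.symm⟩)
      · unfold genus
        rw [e1, ← sum_range_reflect]
        have : ∀ j ∈ range (m + 1), n (m + 1 - 1 - j) - 1 = j := by
          intro j hj
          rw [mem_range] at hj
          have := hn (m + 1 - 1 - j) (by omega)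
          omega
        rw [sum_congr rfl this, mul_comm, sum_range_id_mul_two]
        rfl
    · have hn : ∀ k, k < m + 1 → n k = k + 1 := fun k hk' => (hk k (by omega)).1
      have hq' : ∀ j, j < m + 1 → Q j = Q 0 := fun j hj => hq j (by omega)
      have hs := sizeB hq' hn
      obtain ⟨hdis, hF⟩ := chain_conv m (fun k => pts p (m - k))
        (fun k hk' => by rw [hcard (m - k) (by omega), hn (m - k) (by omega)]; omega) P hP
        (fun k hk' z => by
          have h3 := (hk (m - k) (by omega)).2 z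
          have h4 : m - (m - k) = k := by omega
          rw [h4] at h3
          rw [h3, mem_pts])
      refine ⟨⟨?_, hinj, ?_, hsum, (forces_iff (cB hq') hs hinj').1 (forces_reverse.1 hF)⟩, ?_⟩
      · intro k hk'
        have := hn k (by omega)
        omega
      · intro k hk' i j hij
        have h3 := hdis (m - (k + 1)) (by omega)
        have h4 : m - (m - (k + 1)) = k + 1 := by omega
        have h5 : m - (m - (k + 1) + 1) = k := by omega
        simp only [h4, h5] at h3
        exact Finset.disjoint_left.1 h3 ((mem_pts (k + 1) _).2 ⟨j, hij.symm⟩)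
          ((mem_pts k _).2 ⟨i, rfl⟩)
      · unfold genus
        rw [e1]
        have : ∀ j ∈ range (m + 1), n j - 1 = j := by
          intro j hj
          rw [mem_range] at hj
          have := hn j hj
          omega
        rw [sum_congr rfl this, mul_comm, sum_range_id_mul_two]
        rfl

end

end Pool.Agent.H62.HM
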