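import Pool.Agent.H62.HM.Gon

/-!
# Balanced configurations without order: N <= 2 G + 2, sharp
-/

set_option autoImplicit false

namespace Pool.Agent.H62.HM

open Finset

theorem self_zero {n : ℕ} (f : Fin n → ℂ) (a : ℂ) : ∑ i, ∑ j ∈ univ.erase i, a / (f i - f j) = 0 := by
  have h0 : ∀ i, ∑ j ∈ univ.erase i, a / (f i - f j) = ∑ j, a / (f i - f j) := fun i =>
    sum_erase _ (by simp)
  simp only [h0]
  have h1 : ∑ i, ∑ j, a / (f i - f j) = ∑ i, ∑ j, a / (f j - f i) := sum_comm
  have h2 : ∑ i, ∑ j, a / (f j - f i) = - ∑ i, ∑ j, a / (f i - f j) := by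
    rw [← sum_neg_distrib]
    refine sum_congr rfl fun i _ => ?_
    rw [← sum_neg_distrib]
    refine sum_congr rfl fun j _ => ?_
    rw [← neg_sub (f i) (f j), div_neg]
  rw [h2] at h1
  have h3 : (2 : ℂ) * ∑ i, ∑ j, a / (f i - f j) = 0 := by linear_combination h1
  exact (mul_eq_zero.1 h3).resolve_left two_ne_zero

variable {M : ℕ} {n : ℕ → ℕ} {Q : ℕ → ℝ} {p : (k : ℕ) → Fin (n k) → ℂ}

/-- the total force between two adjacent levels vanishes -/
theorem third (h : Balanced (M + 2) n Q p) : ∀ k, k + 1 ≤ M →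
    ∑ i : Fin (n k), ∑ j : Fin (n (k + 1)),
      (size n Q k : ℂ) * (size n Q (k + 1) : ℂ) / (p k i - p (k + 1) j) = 0 := by
  have key : ∀ k, k ≤ M → (if 1 ≤ k then ∑ i : Fin (n k), ∑ j : Fin (n (k - 1)),
      (size n Q k : ℂ) * (size n Q (k - 1) : ℂ) / (p k i - p (k - 1) j) else 0) +
      (if k + 1 ≤ M then ∑ i : Fin (n k), ∑ j : Fin (n (k + 1)),
      (size n Q k : ℂ) * (size n Q (k + 1) : ℂ) / (p k i - p (k + 1) j) else 0) = 0 := by
    intro k hk
    have e : M + 2 - 1 = M + 1 := rfl
    have h1 : ∑ i, force (M + 2) n Q p k i = 0 := sum_eq_zero fun i _ => h.zero k (by omega) i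
    unfold force at h1
    rw [sum_sub_distrib, self_zero, zero_sub, neg_eq_zero, sum_comm, e,
      filter_sum M k _ hk] at h1
    exact h1
  intro k
  induction k with
  | zero =>
    intro hk
    have h1 := key 0 (by omega)
    rw [if_neg (by omega), if_pos hk, zero_add] at h1
    exact h1
  | succ k ih =>
    intro hk
    have h1 := key (k + 1) (by omega)
    have h2 := ih (by omega)
    rw [if_pos (by omega), if_pos hk] at h1
    have h3 : ∑ i : Fin (n (k + 1)), ∑ j : Fin (n (k + 1 - 1)),
        (size n Q (k + 1) : ℂ) * (size n Q (k + 1 - 1) : ℂ) / (p (k + 1) i - p (k + 1 - 1) j) =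
        - ∑ i : Fin (n k), ∑ j : Fin (n (k + 1)),
          (size n Q k : ℂ) * (size n Q (k + 1) : ℂ) / (p k i - p (k + 1) j) := by
      show ∑ i : Fin (n (k + 1)), ∑ j : Fin (n k),
        (size n Q (k + 1) : ℂ) * (size n Q k : ℂ) / (p (k + 1) i - p k j) = _
      rw [sum_comm, ← sum_neg_distrib]
      refine sum_congr rfl fun i _ => ?_
      rw [← sum_neg_distrib]
      refine sum_congr rfl fun j _ => ?_
      rw [← neg_sub (p k i) (p (k + 1) j), div_neg, mul_comm]
    rw [h3, h2, neg_zero, zero_add] at h1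
    exact h1

/-- two adjacent levels have at least three necks -/
theorem not_both_one (h : Balanced (M + 2) n Q p) (hs : ∀ k, k + 1 < M + 2 → size n Q k ≠ 0)
    (k : ℕ) (hk : k + 1 ≤ M) : 1 ≤ (n k - 1) + (n (k + 1) - 1) := by
  by_contra hc
  have p1 := h.pos k (by omega)
  have p2 := h.pos (k + 1) (by omega)
  have h1 : n k = 1 := by omega
  have h2 : n (k + 1) = 1 := by omega
  have h3 := third h k hk
  have i0 : Fin (n k) := ⟨0, by omega⟩
  have j0 : Fin (n (k + 1)) := ⟨0, by omega⟩
  have : Subsingleton (Fin (n k)) := by rw [h1]; infer_instance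
  have : Subsingleton (Fin (n (k + 1))) := by rw [h2]; infer_instance
  rw [Fintype.sum_subsingleton _ i0, Fintype.sum_subsingleton _ j0] at h3
  have h4 : p k i0 - p (k + 1) j0 ≠ 0 := sub_ne_zero.2 (h.adj k (by omega) i0 j0)
  have h5 : (size n Q k : ℂ) ≠ 0 := by exact_mod_cast hs k (by omega)
  have h6 : (size n Q (k + 1) : ℂ) ≠ 0 := by exact_mod_cast hs (k + 1) (by omega)
  exact div_ne_zero (mul_ne_zero h5 h6) h4 h3

theorem bound_unordered {N : ℕ} (hN : 2 ≤ N) (h : Balanced N n Q p)
    (hs : ∀ k, k + 1 < N → size n Q k ≠ 0) : N ≤ 2 * genus N n + 2 := by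
  obtain ⟨M, rfl⟩ : ∃ m, N = m + 2 := ⟨N - 2, by omega⟩
  have key : ∀ K, K ≤ M → K ≤ 2 * ∑ k ∈ range (K + 1), (n k - 1) := by
    intro K
    induction K using Nat.strong_induction_on with
    | _ K ih =>
      intro hK
      match K with
      | 0 => omega
      | 1 =>
        have h1 := not_both_one h hs 0 (by omega)
        rw [sum_range_succ, sum_range_one]
        have e : 0 + 1 = 1 := rfl
        rw [e] at h1
        omega
      | K + 2 =>
        have h1 := not_both_one h hs (K + 1) (by omega)
        have h2 := ih K (by omega) (by omega)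
        rw [sum_range_succ, sum_range_succ]
        have e : K + 1 + 1 = K + 2 := rfl
        rw [e] at h1
        omega
  have h1 := key M le_rfl
  unfold genus
  have e : M + 2 - 1 = M + 1 := rfl
  rw [e]
  omega

/-- numbers of necks 1, 2, 1, 2, ... -/
def n12 (k : ℕ) : ℕ := if k % 2 = 0 then 1 else 2

/-- growths 1, 3, -3, 3, ..., -3, -1 -/
noncomputable def Q12 (G : ℕ) (j : ℕ) : ℝ :=
  if j = 0 then 1 else if j = 2 * G + 1 then -1 else if j % 2 = 0 then -3 else 3

/-- positions 0 and 1, -1 -/
noncomputable def R12 (k : ℕ) : Finset ℂ := if k % 2 = 0 then {0} else {1, -1}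

theorem sum12 (G k : ℕ) (hk : k ≤ 2 * G) :
    ∑ j ∈ range (k + 1), Q12 G j = if k % 2 = 0 then 1 else 4 := by
  induction k with
  | zero => simp [Q12]
  | succ k ih =>
    have hq : Q12 G (k + 1) = if (k + 1) % 2 = 0 then -3 else 3 := by
      unfold Q12
      rw [if_neg (by omega), if_neg (by omega)]
    rw [sum_range_succ, ih (by omega), hq]
    by_cases h : k % 2 = 0
    · have h' : ¬ (k + 1) % 2 = 0 := by omega
      rw [if_pos h, if_neg h', if_neg h']
      norm_num
    · have h' : (k + 1) % 2 = 0 := by omega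
      rw [if_neg h, if_pos h', if_pos h']
      norm_num

theorem size12 (G k : ℕ) (hk : k ≤ 2 * G) :
    size n12 (Q12 G) k = if k % 2 = 0 then 1 else 2 := by
  unfold size
  rw [sum12 G k hk]
  unfold n12
  by_cases h : k % 2 = 0
  · simp [h]
  · simp only [h, if_false]
    norm_num

theorem ex12 (G : ℕ) : ∃ p : (k : ℕ) → Fin (n12 k) → ℂ, Balanced (2 * G + 2) n12 (Q12 G) p := by
  have hne : (1 : ℂ) ≠ -1 := by norm_num
  refine of_sets R12 ?_ ?_ ?_ ?_ ?_
  · intro k _
    unfold R12 n12
    by_cases h : k % 2 = 0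
    · simp [h]
    · simp only [h, if_false]
      exact card_pair hne
  · intro k _
    unfold n12
    split_ifs <;> omega
  · intro k _
    unfold R12
    by_cases h : k % 2 = 0
    · rw [if_pos h, if_neg (by omega)]
      simp
    · rw [if_neg h, if_pos (by omega)]
      simp
  · rw [sum_range_succ, sum12 G (2 * G) le_rfl, if_pos (by omega)]
    unfold Q12
    rw [if_neg (by omega), if_pos rfl]
    norm_num
  · intro k hk z hz
    by_cases h : k % 2 = 0
    · have e0 : R12 k = {0} := by unfold R12; rw [if_pos h]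
      rw [e0, mem_singleton] at hz
      subst hz
      have e1 : ∀ l, l % 2 = 1 → ∑ v ∈ R12 l, 1 / ((0 : ℂ) - v) = 0 := by
        intro l hl
        have e2 : R12 l = {1, -1} := by unfold R12; rw [if_neg (by omega)]
        rw [e2, sum_pair hne]
        norm_num
      rw [e0]
      have e3 : ({0} : Finset ℂ).erase 0 = ∅ := by simp
      rw [e3, sum_empty, mul_zero, mul_zero, e1 (k + 1) (by omega)]
      by_cases hk1 : 1 ≤ k
      · rw [if_pos hk1, e1 (k - 1) (by omega)]
        simp
      · rw [if_neg hk1]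
        simp
    · have e0 : R12 k = {1, -1} := by unfold R12; rw [if_neg h]
      have e1 : ∀ l, l % 2 = 0 → ∑ v ∈ R12 l, 1 / (z - v) = 1 / z := by
        intro l hl
        have e2 : R12 l = {0} := by unfold R12; rw [if_pos hl]
        rw [e2, sum_singleton, sub_zero]
      rw [if_pos (by omega), if_pos (by omega), e1 (k - 1) (by omega), e1 (k + 1) (by omega),
        size12 G k hk, size12 G (k - 1) (by omega), size12 G (k + 1) (by omega), if_neg h,
        if_pos (by omega), if_pos (by omega)]
      rw [e0, mem_insert, mem_singleton] at hz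
      rw [e0]
      rcases hz with rfl | rfl
      · have e4 : ({1, -1} : Finset ℂ).erase 1 = {-1} := by
          rw [erase_insert]
          simpa using hne
        rw [e4, sum_singleton]
        push_cast
        norm_num
      · have e4 : ({1, -1} : Finset ℂ).erase (-1) = {1} := by
          rw [pair_comm, erase_insert]
          simpa using hne.symm
        rw [e4, sum_singleton]
        push_cast
        norm_num

/-- the bound `N ≤ 2 G + 2` is attained for every genus -/
theorem attained12 (G : ℕ) : ∃ (n : ℕ → ℕ) (Q : ℕ → ℝ) (p : (k : ℕ) → Fin (n k) → ℂ),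
    Balanced (2 * G + 2) n Q p ∧ (∀ k, k + 1 < 2 * G + 2 → 0 < size n Q k) ∧
      genus (2 * G + 2) n = G := by
  obtain ⟨p, hp⟩ := ex12 G
  refine ⟨n12, Q12 G, p, hp, ?_, ?_⟩
  · intro k hk
    rw [size12 G k (by omega)]
    split_ifs <;> norm_num
  · unfold genus
    have e : 2 * G + 2 - 1 = 2 * G + 1 := rfl
    rw [e]
    clear hp p e
    induction G with
    | zero => simp [n12]
    | succ G ih =>
      have e2 : 2 * (G + 1) + 1 = 2 * G + 1 + 1 + 1 := by ring
      rw [e2, sum_range_succ, sum_range_succ, ih]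
      unfold n12
      rw [if_neg (by omega), if_pos (by omega)]

end Pool.Agent.H62.HM
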